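import Mathlib
import Pool.Agent.Helper15.Det

/-!
# Weight multiplicities by Gelfand-Tsetlin patterns
-/

open Finset

namespace Pool.Agent.Helper24.RTG

open Pool.Agent.Helper15

/-- the rows below a row `u` -/
def rows {n : ℕ} (u : Fin (n + 1) → ℕ) : Finset (Fin n → ℕ) :=
  Fintype.piFinset (fun i : Fin n => Ico (u i.castSucc) (u i.succ))

theorem mem_rows {n : ℕ} {u : Fin (n + 1) → ℕ} {ξ : Fin n → ℕ} :
    ξ ∈ rows u ↔ ∀ i, u i.castSucc ≤ ξ i ∧ ξ i < u i.succ := by
  rw [rows, Fintype.mem_piFinset]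
  exact forall_congr' fun i => mem_Ico

theorem rows_strictMono {n : ℕ} {u : Fin (n + 1) → ℕ} (hu : StrictMono u) {ξ : Fin n → ℕ}
    (hξ : ξ ∈ rows u) : StrictMono ξ := by
  rw [mem_rows] at hξ
  intro i j hij
  have hi := (hξ i).2
  have hj := (hξ j).1
  have : u i.succ ≤ u j.castSucc := hu.monotone (Fin.succ_le_castSucc_iff.2 hij)
  omega

/-- the number of Gelfand-Tsetlin patterns with top row `u` and weight `e` -/
def cnt : (n : ℕ) → (Fin n → ℕ) → (Fin n → ℕ) → ℕ
  | 0, _, _ => 1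
  | n + 1, u, e => ∑ ξ ∈ rows u,
      if e 0 = u 0 + ∑ i : Fin n, (u i.succ - 1 - ξ i) then cnt n ξ (fun i => e i.succ) else 0

theorem cnt_succ {n : ℕ} (u e : Fin (n + 1) → ℕ) : cnt (n + 1) u e = ∑ ξ ∈ rows u,
      if e 0 = u 0 + ∑ i : Fin n, (u i.succ - 1 - ξ i) then cnt n ξ (fun i => e i.succ) else 0 :=
  rfl

theorem exists_of_cnt_ne {n : ℕ} {u e : Fin (n + 1) → ℕ} (h : cnt (n + 1) u e ≠ 0) :
    ∃ ξ ∈ rows u, e 0 = u 0 + ∑ i : Fin n, (u i.succ - 1 - ξ i) ∧
      cnt n ξ (fun i => e i.succ) ≠ 0 := by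
  rw [cnt_succ] at h
  obtain ⟨ξ, hξ, h1⟩ := Finset.exists_ne_zero_of_sum_ne_zero h
  refine ⟨ξ, hξ, ?_⟩
  by_cases h2 : e 0 = u 0 + ∑ i : Fin n, (u i.succ - 1 - ξ i)
  · rw [if_pos h2] at h1
    exact ⟨h2, h1⟩
  · rw [if_neg h2] at h1
    exact absurd rfl h1

theorem sum_telescope : ∀ {n : ℕ} (u : Fin (n + 1) → ℕ), StrictMono u →
    u 0 + ∑ i : Fin n, (u i.succ - u i.castSucc) = u (Fin.last n) := by
  intro n
  induction n with
  | zero => intro u _; simp
  | succ n ih =>
    intro u hu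
    rw [Fin.sum_univ_castSucc, ← add_assoc]
    have h1 := ih (fun i => u i.castSucc) (hu.comp (Fin.strictMono_castSucc))
    have h2 : u 0 + ∑ i : Fin n, (u i.castSucc.succ - u i.castSucc.castSucc) =
        u (Fin.last n).castSucc := h1
    have h3 : u (Fin.last n).castSucc < u (Fin.last n).succ := hu Fin.castSucc_lt_succ
    have h4 : u (Fin.last (n + 1)) = u (Fin.last n).succ := rfl
    rw [h2, h4]
    omega

theorem cnt_bounds : ∀ (n : ℕ) (u e : Fin n → ℕ), StrictMono u → cnt n u e ≠ 0 →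
    ∀ lo hi : ℕ, (∀ i, lo ≤ u i) → (∀ i, u i ≤ hi) → ∀ j, lo ≤ e j ∧ e j ≤ hi := by
  intro n
  induction n with
  | zero => intro u e _ _ lo hi _ _ j; exact j.elim0
  | succ n ih =>
    intro u e hu h lo hi hlo hhi j
    obtain ⟨ξ, hξ, h0, h1⟩ := exists_of_cnt_ne h
    have hmono := rows_strictMono hu hξ
    have hm := mem_rows.1 hξ
    refine Fin.cases ?_ (fun j => ?_) j
    · have h2 : ∑ i : Fin n, (u i.succ - 1 - ξ i) ≤ ∑ i : Fin n, (u i.succ - u i.castSucc) :=
        Finset.sum_le_sum fun i _ => by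
          have := (hm i).1
          omega
      have h3 := sum_telescope u hu
      have h4 := hhi (Fin.last n)
      have h5 := hlo 0
      omega
    · exact ih ξ (fun i => e i.succ) hmono h1 lo hi
        (fun i => (hlo _).trans (hm i).1) (fun i => ((hm i).2.le).trans (hhi _)) j

theorem cnt_sum : ∀ (n : ℕ) (u e : Fin n → ℕ), StrictMono u → cnt n u e ≠ 0 →
    ∑ i, e i + ∑ i : Fin n, (i : ℕ) = ∑ i, u i := by
  intro n
  induction n with
  | zero => intro u e _ _; simp
  | succ n ih =>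
    intro u e hu h
    obtain ⟨ξ, hξ, h0, h1⟩ := exists_of_cnt_ne h
    have hmono := rows_strictMono hu hξ
    have hm := mem_rows.1 hξ
    have h2 := ih ξ (fun i => e i.succ) hmono h1
    rw [Fin.sum_univ_succ (f := e), Fin.sum_univ_succ (f := u), h0,
      Fin.sum_univ_succ (f := fun i : Fin (n + 1) => (i : ℕ))]
    have h3 : ∑ i : Fin n, (u i.succ - 1 - ξ i) + (∑ i, ξ i + ∑ _i : Fin n, 1) =
        ∑ i : Fin n, u i.succ := by
      rw [← Finset.sum_add_distrib, ← Finset.sum_add_distrib]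
      refine Finset.sum_congr rfl fun i _ => ?_
      have := (hm i).2
      omega
    have h4 : ∑ i : Fin n, ((i.succ : Fin (n + 1)) : ℕ) = ∑ i : Fin n, (i : ℕ) +
        ∑ _i : Fin n, 1 := by
      rw [← Finset.sum_add_distrib]
      exact Finset.sum_congr rfl fun i _ => by simp
    rw [h4]
    simp only [Fin.val_zero]
    omega

/-- summation over boxes in one more variable -/
theorem sum_box_succ {M : Type*} [AddCommMonoid M] (n B : ℕ) (f : (Fin (n + 1) → ℕ) → M) :
    ∑ e ∈ Fintype.piFinset (fun _ : Fin (n + 1) => range B), f e =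
      ∑ a ∈ range B, ∑ e ∈ Fintype.piFinset (fun _ : Fin n => range B),
        f (Fin.cons a e : Fin (n + 1) → ℕ) := by
  rw [← Finset.sum_product']
  refine Finset.sum_bij' (fun e _ => (e 0, fun i => e i.succ))
    (fun p _ => (Fin.cons p.1 p.2 : Fin (n + 1) → ℕ)) ?_ ?_ ?_ ?_ ?_
  · intro e he
    have := Fintype.mem_piFinset.1 he
    exact Finset.mem_product.2 ⟨this 0, Fintype.mem_piFinset.2 fun i => this i.succ⟩
  · intro p hp
    obtain ⟨h1, h2⟩ := Finset.mem_product.1 hp
    refine Fintype.mem_piFinset.2 fun i => ?_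
    refine Fin.cases ?_ (fun i => ?_) i
    · rw [Fin.cons_zero]; exact h1
    · rw [Fin.cons_succ]; exact Fintype.mem_piFinset.1 h2 i
  · intro e _
    exact Fin.cons_self_tail e
  · intro p _
    simp
  · intro e _
    have : (Fin.cons (e 0) (fun i => e i.succ) : Fin (n + 1) → ℕ) = e := Fin.cons_self_tail e
    rw [this]

/-- the weight expansion of the generalised Vandermonde determinant -/
theorem det_cnt : ∀ (n : ℕ) (u : Fin n → ℕ), StrictMono u → ∀ B : ℕ, (∀ i, u i < B) →
    ∀ z : Fin n → ℂ, Matrix.det (Matrix.of fun i j => z j ^ u i) =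
      (∏ i, ∏ j ∈ Ioi i, (z j - z i)) *
        ∑ e ∈ Fintype.piFinset (fun _ : Fin n => range B), (cnt n u e : ℂ) * ∏ i, z i ^ e i := by
  intro n
  induction n with
  | zero => intro u _ B _ z; simp [cnt]
  | succ n ih =>
    intro u hu B hB z
    rw [det_step n u hu z, prod_pairs_succ, sum_box_succ]
    have hrows : (Fintype.piFinset fun i : Fin n => Ico (u i.castSucc) (u i.succ)) = rows u := rfl
    rw [hrows, mul_left_comm, mul_assoc]
    congr 1
    have h1 : ∀ ξ ∈ rows u, (∏ i : Fin n, z 0 ^ (u i.succ - 1 - ξ i)) *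
        Matrix.det (Matrix.of fun i j => z (Fin.succ j) ^ ξ i) =
        (∏ i : Fin n, ∏ j ∈ Ioi i, (z j.succ - z i.succ)) *
        ∑ e ∈ Fintype.piFinset (fun _ : Fin n => range B),
          (cnt n ξ e : ℂ) * (z 0 ^ (∑ i : Fin n, (u i.succ - 1 - ξ i)) * ∏ i, z i.succ ^ e i) := by
      intro ξ hξ
      have hm := mem_rows.1 hξ
      rw [ih ξ (rows_strictMono hu hξ) B (fun i => (hm i).2.trans (hB _)) (fun j => z j.succ),
        Finset.prod_pow_eq_pow_sum, mul_left_comm, Finset.mul_sum]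
      congr 1
      refine Finset.sum_congr rfl fun e _ => ?_
      ring
    rw [Finset.sum_congr rfl h1, ← Finset.mul_sum, mul_left_comm]
    congr 1
    rw [Finset.mul_sum]
    have h2 : ∀ a ∈ range B, ∑ e ∈ Fintype.piFinset (fun _ : Fin n => range B),
        (cnt (n + 1) u (Fin.cons a e : Fin (n + 1) → ℕ) : ℂ) *
          ∏ i, z i ^ (Fin.cons a e : Fin (n + 1) → ℕ) i =
        ∑ ξ ∈ rows u, if a = u 0 + ∑ i : Fin n, (u i.succ - 1 - ξ i) then
          ∑ e ∈ Fintype.piFinset (fun _ : Fin n => range B),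
            (cnt n ξ e : ℂ) * (z 0 ^ a * ∏ i : Fin n, z i.succ ^ e i) else 0 := by
      intro a _
      have h3 : ∀ e ∈ Fintype.piFinset (fun _ : Fin n => range B),
        (cnt (n + 1) u (Fin.cons a e : Fin (n + 1) → ℕ) : ℂ) *
          ∏ i, z i ^ (Fin.cons a e : Fin (n + 1) → ℕ) i =
          ∑ ξ ∈ rows u, if a = u 0 + ∑ i : Fin n, (u i.succ - 1 - ξ i) then
            (cnt n ξ e : ℂ) * (z 0 ^ a * ∏ i : Fin n, z i.succ ^ e i) else 0 := by
        intro e _
        rw [cnt_succ, Fin.prod_univ_succ]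
        simp only [Fin.cons_zero, Fin.cons_succ]
        push_cast
        rw [Finset.sum_mul]
        refine Finset.sum_congr rfl fun ξ _ => ?_
        split_ifs
        · rfl
        · simp
      rw [Finset.sum_congr rfl h3, Finset.sum_comm]
      refine Finset.sum_congr rfl fun ξ _ => ?_
      split_ifs
      · rfl
      · simp
    rw [Finset.sum_congr rfl h2, Finset.sum_comm]
    refine Finset.sum_congr rfl fun ξ hξ => ?_
    have hm := mem_rows.1 hξ
    have h5 : u 0 + ∑ i : Fin n, (u i.succ - 1 - ξ i) ∈ range B := by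
      have h2 : ∑ i : Fin n, (u i.succ - 1 - ξ i) ≤ ∑ i : Fin n, (u i.succ - u i.castSucc) :=
        Finset.sum_le_sum fun i _ => by
          have := (hm i).1
          omega
      have h3 := sum_telescope u hu
      have h4 := hB (Fin.last n)
      rw [Finset.mem_range]
      omega
    rw [Finset.sum_ite_eq' (range B) (u 0 + ∑ i : Fin n, (u i.succ - 1 - ξ i))
      (fun a => ∑ e ∈ Fintype.piFinset (fun _ : Fin n => range B),
            (cnt n ξ e : ℂ) * (z 0 ^ a * ∏ i : Fin n, z i.succ ^ e i)), if_pos h5, Finset.mul_sum]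
    refine Finset.sum_congr rfl fun e _ => ?_
    rw [pow_add]
    ring

end Pool.Agent.Helper24.RTG
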