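import Mathlib
import Pool.Agent.Helper24.RTG.Cnt
import Pool.Agent.Helper15.AllN.Upper

/-!
# Upper bound for the weight multiplicities
-/

open Finset

namespace Pool.Agent.Helper24.RTG

open Pool.Agent.Helper15 Pool.Agent.Helper15.AllN

/-- product of the differences of two rows -/
def PI2 (N : ℕ) (lo hi : Fin N → ℕ) : ℕ := ∏ i, ∏ j ∈ Ioi i, (hi j - lo i)

theorem PI2_succ (n : ℕ) (lo hi : Fin (n + 1) → ℕ) : PI2 (n + 1) lo hi =
    (∏ i : Fin n, (hi i.succ - lo i.castSucc)) *
      PI2 n (fun i => lo i.castSucc) (fun i => hi i.succ) :=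
  prod_pairs_neighbour n (fun i j => hi j - lo i)

/-- the number of rows with a given sum -/
theorem card_rows_le {n : ℕ} (u : Fin (n + 1) → ℕ) (c : ℕ) (κ : Fin n) :
    #((rows u).filter fun ξ => c = u 0 + ∑ i : Fin n, (u i.succ - 1 - ξ i)) ≤
      ∏ i : Fin n, if i = κ then 1 else (u i.succ - u i.castSucc) := by
  classical
  have hcard : #(Fintype.piFinset fun i : Fin n =>
      if i = κ then ({u κ.castSucc} : Finset ℕ) else Ico (u i.castSucc) (u i.succ)) =
      ∏ i : Fin n, if i = κ then 1 else (u i.succ - u i.castSucc) := by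
    rw [Fintype.card_piFinset]
    refine Finset.prod_congr rfl fun i _ => ?_
    split_ifs
    · simp
    · simp
  rw [← hcard]
  refine Finset.card_le_card_of_injOn (fun ξ => Function.update ξ κ (u κ.castSucc)) ?_ ?_
  · intro ξ hξ
    have h1 := mem_rows.1 (Finset.mem_filter.1 hξ).1
    refine Finset.mem_coe.2 (Fintype.mem_piFinset.2 fun i => ?_)
    by_cases h : i = κ
    · subst h
      simp
    · simp only [if_neg h, Function.update_of_ne h]
      exact mem_Ico.2 (h1 i)
  · intro ξ hξ ξ' hξ' h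
    have h1 := Finset.mem_filter.1 hξ
    have h1' := Finset.mem_filter.1 hξ'
    have m1 := mem_rows.1 h1.1
    have m1' := mem_rows.1 h1'.1
    have h2 : ∀ i, i ≠ κ → ξ i = ξ' i := by
      intro i hi
      have := congrFun h i
      simpa only [Function.update_of_ne hi] using this
    have h3 : ∑ i : Fin n, (u i.succ - 1 - ξ i) = ∑ i : Fin n, (u i.succ - 1 - ξ' i) := by
      have e1 := h1.2
      have e2 := h1'.2
      omega
    rw [← Finset.add_sum_erase univ _ (Finset.mem_univ κ),
      ← Finset.add_sum_erase univ (fun i : Fin n => (u i.succ - 1 - ξ' i)) (Finset.mem_univ κ)] at h3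
    have h4 : ∑ i ∈ univ.erase κ, (u i.succ - 1 - ξ i) =
        ∑ i ∈ univ.erase κ, (u i.succ - 1 - ξ' i) :=
      Finset.sum_congr rfl fun i hi => by rw [h2 i (Finset.ne_of_mem_erase hi)]
    have h5 := (m1 κ).2
    have h6 := (m1' κ).2
    funext i
    by_cases hi : i = κ
    · subst hi
      omega
    · exact h2 i hi

theorem cnt_mul_pow_le : ∀ (m : ℕ) (lo hi u e : Fin (m + 1) → ℕ) (g : ℕ), Monotone lo →
    Monotone hi → StrictMono u → (∀ i, lo i ≤ u i) → (∀ i, u i ≤ hi i) →
    (0 < m → ∃ κ : Fin m, g ≤ hi κ.succ - lo κ.castSucc) →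
    cnt (m + 1) u e * g ^ m ≤ PI2 (m + 1) lo hi := by
  intro m
  induction m with
  | zero =>
    intro lo hi u e g _ _ _ _ _ _
    have h1 : PI2 1 lo hi = 1 := by
      simp [PI2]
    have h2 : cnt 1 u e ≤ 1 := by
      rw [cnt_succ, rows]
      simp only [Fintype.piFinset_of_isEmpty, Finset.univ_unique, Finset.sum_singleton]
      split_ifs
      · exact le_refl _
      · exact Nat.zero_le _
    rw [pow_zero, mul_one]
    have h3 : PI2 (0 + 1) lo hi = 1 := h1
    rw [h3]
    exact h2
  | succ m ih =>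
    intro lo hi u e g hlo hhi hu h1 h2 h3
    obtain ⟨κ, hκ⟩ := h3 (Nat.succ_pos m)
    have hlo' : Monotone (fun i : Fin (m + 1) => lo i.castSucc) := fun i j hij =>
      hlo (Fin.castSucc_le_castSucc_iff.2 hij)
    have hhi' : Monotone (fun i : Fin (m + 1) => hi i.succ) := fun i j hij =>
      hhi (Fin.succ_le_succ_iff.2 hij)
    have h4 : 0 < m → ∃ κ' : Fin m, g ≤ hi κ'.succ.succ - lo κ'.castSucc.castSucc := by
      intro hm
      by_cases hk : (κ : ℕ) < m
      · refine ⟨⟨κ, hk⟩, hκ.trans ?_⟩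
        have e1 : hi κ.succ ≤ hi (Fin.succ (Fin.succ ⟨κ, hk⟩)) :=
          hhi (by rw [Fin.le_def]; simp)
        have e2 : lo (Fin.castSucc (Fin.castSucc ⟨κ, hk⟩)) ≤ lo κ.castSucc :=
          hlo (by rw [Fin.le_def]; simp)
        omega
      · have hk' : (κ : ℕ) = m := by have := κ.isLt; omega
        refine ⟨⟨m - 1, by omega⟩, hκ.trans ?_⟩
        have e1 : hi κ.succ ≤ hi (Fin.succ (Fin.succ ⟨m - 1, by omega⟩)) :=
          hhi (by rw [Fin.le_def]; simp; omega)
        have e2 : lo (Fin.castSucc (Fin.castSucc ⟨m - 1, by omega⟩)) ≤ lo κ.castSucc :=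
          hlo (by rw [Fin.le_def]; simp; omega)
        omega
    have h5 : cnt (m + 1 + 1) u e * g ^ (m + 1) =
        ∑ ξ ∈ (rows u).filter (fun ξ => e 0 = u 0 + ∑ i : Fin (m + 1), (u i.succ - 1 - ξ i)),
          (cnt (m + 1) ξ (fun i => e i.succ) * g ^ m) * g := by
      rw [cnt_succ, ← Finset.sum_filter, Finset.sum_mul]
      refine Finset.sum_congr rfl fun ξ _ => ?_
      ring
    rw [h5]
    have h6 : ∀ ξ ∈ (rows u).filter
        (fun ξ => e 0 = u 0 + ∑ i : Fin (m + 1), (u i.succ - 1 - ξ i)),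
        (cnt (m + 1) ξ (fun i => e i.succ) * g ^ m) * g ≤
          PI2 (m + 1) (fun i => lo i.castSucc) (fun i => hi i.succ) * g := by
      intro ξ hξ
      have hξ' := (Finset.mem_filter.1 hξ).1
      have hm := mem_rows.1 hξ'
      refine Nat.mul_le_mul_right _ ?_
      exact ih (fun i => lo i.castSucc) (fun i => hi i.succ) ξ (fun i => e i.succ) g hlo' hhi'
        (rows_strictMono hu hξ') (fun i => (h1 _).trans (hm i).1)
        (fun i => (hm i).2.le.trans (h2 _)) h4
    refine (Finset.sum_le_sum h6).trans ?_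
    rw [Finset.sum_const, smul_eq_mul, PI2_succ (m + 1) lo hi]
    have h7 : (∏ i : Fin (m + 1), if i = κ then 1 else (u i.succ - u i.castSucc)) * g ≤
        ∏ i : Fin (m + 1), (hi i.succ - lo i.castSucc) := by
      have e1 : g = ∏ i : Fin (m + 1), if i = κ then g else 1 := by
        rw [Finset.prod_ite_eq' univ κ (fun _ => g), if_pos (Finset.mem_univ _)]
      rw [e1, ← Finset.prod_mul_distrib]
      refine Finset.prod_le_prod' fun i _ => ?_
      by_cases hi' : i = κ
      · subst hi'
        rw [if_pos rfl, if_pos rfl, one_mul]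
        exact hκ
      · rw [if_neg hi', if_neg hi', mul_one]
        have := h1 i.castSucc
        have := h2 i.succ
        omega
    calc #((rows u).filter (fun ξ => e 0 = u 0 + ∑ i : Fin (m + 1), (u i.succ - 1 - ξ i))) *
          (PI2 (m + 1) (fun i => lo i.castSucc) (fun i => hi i.succ) * g)
        ≤ (∏ i : Fin (m + 1), if i = κ then 1 else (u i.succ - u i.castSucc)) *
          (PI2 (m + 1) (fun i => lo i.castSucc) (fun i => hi i.succ) * g) :=
          Nat.mul_le_mul_right _ (card_rows_le u (e 0) κ)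
      _ = ((∏ i : Fin (m + 1), if i = κ then 1 else (u i.succ - u i.castSucc)) * g) *
          PI2 (m + 1) (fun i => lo i.castSucc) (fun i => hi i.succ) := by ring
      _ ≤ _ := Nat.mul_le_mul_right _ h7

/-- the multiplicities are small if there is a big gap -/
theorem cnt_mul_gap_pow_le {n : ℕ} {u : Fin (n + 1) → ℕ} (hu : StrictMono u)
    (e : Fin (n + 1) → ℕ) (κ : Fin n) :
    cnt (n + 1) u e * (u κ.succ - u κ.castSucc) ^ n ≤ PI (n + 1) u :=
  cnt_mul_pow_le n u u u e _ hu.monotone hu.monotone hu (fun _ => le_rfl) (fun _ => le_rfl)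
    (fun _ => ⟨κ, le_rfl⟩)

/-- the multiplicities times the product of the gaps -/
theorem cnt_mul_G_le {n : ℕ} (hn : 1 ≤ n) {u : Fin (n + 1) → ℕ} (hu : StrictMono u)
    (e : Fin (n + 1) → ℕ) : cnt (n + 1) u e * G n u ≤ PI (n + 1) u := by
  have h1 : (cnt (n + 1) u e * G n u) ^ n ≤ PI (n + 1) u ^ n := by
    calc (cnt (n + 1) u e * G n u) ^ n =
        ∏ κ : Fin n, (cnt (n + 1) u e * (u κ.succ - u κ.castSucc) ^ n) := by
          rw [Finset.prod_mul_distrib, Finset.prod_const, Finset.card_univ, Fintype.card_fin,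
            Finset.prod_pow, mul_pow, G]
      _ ≤ ∏ _κ : Fin n, PI (n + 1) u :=
          Finset.prod_le_prod' fun κ _ => cnt_mul_gap_pow_le hu e κ
      _ = PI (n + 1) u ^ n := by
          rw [Finset.prod_const, Finset.card_univ, Fintype.card_fin]
  exact (Nat.pow_le_pow_iff_left (by omega)).1 h1

end Pool.Agent.Helper24.RTG
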