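import Mathlib
import Pool.Agent.Helper21.AEC.SMat

/-!
# The sum over the support as a sum over a coset
-/

open Finset
open scoped Real

namespace Pool.Agent.Helper24.RTG

open Pool.Agent.Helper15.AllN Pool.Agent.Helper15.RT Pool.Agent.Helper21.AEC

/-- the coordinates, shifted by the position, agree modulo `2 N` -/
def InK (N : ℕ) (v : Fin N → ℤ) : Prop :=
  ∀ i j : Fin N, ((2 * N : ℕ) : ℤ) ∣ (v i + (i : ℕ)) - (v j + (j : ℕ))

/-- the coordinates agree modulo `2 N` -/
def K0 (N : ℕ) (v : Fin N → ℤ) : Prop := ∀ i j : Fin N, ((2 * N : ℕ) : ℤ) ∣ v i - v j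

theorem lat_dvd {N s : ℕ} {l : Fin N → ℤ} (hl : l ∈ latL N (2 * N * s)) (i j : Fin N) :
    ((2 * N : ℕ) : ℤ) ∣ l i - l j := by
  obtain ⟨c, m, -, h⟩ := hl
  rw [h i, h j]
  refine ⟨s * (m i - m j), ?_⟩
  push_cast
  ring

theorem InK_add {N s : ℕ} {l : Fin N → ℤ} (hl : l ∈ latL N (2 * N * s)) (v : Fin N → ℤ) :
    InK N (v + l) ↔ InK N v := by
  refine forall_congr' fun i => forall_congr' fun j => ?_
  have h1 : ((v + l) i + (i : ℕ)) - ((v + l) j + (j : ℕ)) =
      ((v i + (i : ℕ)) - (v j + (j : ℕ))) + (l i - l j) := by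
    simp only [Pi.add_apply]
    ring
  rw [h1, dvd_add_left (lat_dvd hl i j)]

theorem K0_add {N : ℕ} {l : Fin N → ℤ} (hl : K0 N l) (v : Fin N → ℤ) :
    K0 N (v + l) ↔ K0 N v := by
  refine forall_congr' fun i => forall_congr' fun j => ?_
  have h1 : (v + l) i - (v + l) j = (v i - v j) + (l i - l j) := by
    simp only [Pi.add_apply]
    ring
  rw [h1, dvd_add_left (hl i j)]

open Classical in
/-- indicator -/
noncomputable def iK (N : ℕ) (v : Fin N → ℤ) : ℂ := if InK N v then 1 else 0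

open Classical in
/-- indicator -/
noncomputable def iK0 (N : ℕ) (v : Fin N → ℤ) : ℂ := if K0 N v then 1 else 0

theorem iK_congr {N : ℕ} {v w : Fin N → ℤ} (h : InK N v ↔ InK N w) : iK N v = iK N w := by
  by_cases hv : InK N v
  · rw [iK, iK, if_pos hv, if_pos (h.1 hv)]
  · rw [iK, iK, if_neg hv, if_neg fun hw => hv (h.2 hw)]

theorem iK0_congr {N : ℕ} {v w : Fin N → ℤ} (h : K0 N v ↔ K0 N w) : iK0 N v = iK0 N w := by
  by_cases hv : K0 N v
  · rw [iK0, iK0, if_pos hv, if_pos (h.1 hv)]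
  · rw [iK0, iK0, if_neg hv, if_neg fun hw => hv (h.2 hw)]

/-- the reference vector -/
def bb (N : ℕ) : Fin N → ℤ := fun i => -((i : ℕ) : ℤ)

theorem iK_add_bb {N : ℕ} (v : Fin N → ℤ) : iK N (v + bb N) = iK0 N v := by
  have h1 : InK N (v + bb N) ↔ K0 N v := by
    refine forall_congr' fun i => forall_congr' fun j => ?_
    have h1 : ((v + bb N) i + (i : ℕ)) - ((v + bb N) j + (j : ℕ)) = v i - v j := by
      simp only [Pi.add_apply, bb]
      ring
    rw [h1]
  by_cases hv : K0 N v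
  · rw [iK, iK0, if_pos hv, if_pos (h1.2 hv)]
  · rw [iK, iK0, if_neg hv, if_neg fun hw => hv (h1.1 hw)]

theorem iK_inv {N s : ℕ} : Inv N (2 * N * s) (iK N) := by
  intro v l hl
  exact iK_congr (InK_add hl v)

theorem iK0_inv {N s : ℕ} : Inv N (2 * N * s) (iK0 N) := by
  intro v l hl
  exact iK0_congr (K0_add (fun i j => lat_dvd hl i j) v)

/-- membership in the support -/
theorem exists_perm_of_mem_supp {N r : ℕ} {y : Fin N → ℕ} (hy : y ∈ supp N r) :
    ∃ σ : Equiv.Perm (Fin N), InK N (fun i => (y (σ i) : ℤ)) := by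
  obtain ⟨-, c, σ, hc⟩ := mem_supp.1 hy
  refine ⟨σ, fun i j => ?_⟩
  have h2 : (y (σ i) + i) ≡ (y (σ j) + j) [MOD (2 * N)] := by
    rw [Nat.ModEq, hc i, hc j]
  have h3 := (Nat.modEq_iff_dvd.1 h2.symm)
  push_cast at h3 ⊢
  exact h3

theorem mem_supp_of_InK {N r : ℕ} [NeZero N] {y : Fin N → ℕ} (hy : y ∈ colors N r)
    {σ : Equiv.Perm (Fin N)} (h : InK N (fun i => (y (σ i) : ℤ))) : y ∈ supp N r := by
  have hN : 0 < N := Nat.pos_of_ne_zero (NeZero.ne N)
  rw [mem_supp]
  refine ⟨hy, ⟨(y (σ 0) + (0 : Fin N)) % (2 * N), Nat.mod_lt _ (by omega)⟩, σ, fun i => ?_⟩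
  have h1 := h 0 i
  have h2 : (y (σ i) + i) ≡ (y (σ 0) + (0 : Fin N)) [MOD (2 * N)] := by
    rw [Nat.modEq_iff_dvd]
    push_cast at h1 ⊢
    exact h1
  exact h2

/-- the sum over the support as a sum over the quotient group -/
theorem supp_sum {N s : ℕ} [NeZero N] [NeZero (2 * N * s)] {F : (Fin N → ℤ) → ℂ}
    (hF : Inv N (2 * N * s) F) (pm : (Fin N → ℕ) → Equiv.Perm (Fin N))
    (hpm : ∀ y ∈ supp N (2 * N * s), InK N (fun i => (y (pm y i) : ℤ))) :
    ∑ y ∈ supp N (2 * N * s), F (fun i => (y (pm y i) : ℤ)) =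
      qsum N (2 * N * s) (fun v => iK N v * F v) := by
  classical
  have hr : 0 < 2 * N * s := Nat.pos_of_ne_zero (NeZero.ne _)
  have hN : 0 < N := Nat.pos_of_ne_zero (NeZero.ne N)
  rw [qsum]
  have h1 : ∀ q ∈ (univ : Finset (Qg N (2 * N * s))), iK N q.out * F q.out =
      if InK N q.out then F q.out else 0 := by
    intro q _
    rw [iK]
    split_ifs
    · rw [one_mul]
    · rw [zero_mul]
  rw [Finset.sum_congr rfl h1, ← Finset.sum_filter]
  refine Finset.sum_bij (fun y _ => (QuotientAddGroup.mk (fun i => (y (pm y i) : ℤ)) :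
    Qg N (2 * N * s))) ?_ ?_ ?_ ?_
  · intro y hy
    rw [Finset.mem_filter]
    refine ⟨Finset.mem_univ _, ?_⟩
    have h2 := mk_out (QuotientAddGroup.mk (fun i => (y (pm y i) : ℤ)) : Qg N (2 * N * s))
    rw [QuotientAddGroup.eq] at h2
    have h3 := InK_add h2 (QuotientAddGroup.mk (fun i => (y (pm y i) : ℤ)) :
      Qg N (2 * N * s)).out
    rw [add_neg_cancel_left] at h3
    exact h3.1 (hpm y hy)
  · intro x hx y hy hxy
    have hx' := (mem_supp.1 hx).1
    have hy' := (mem_supp.1 hy).1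
    obtain ⟨hx1, hx2, hx3⟩ := color_props hx'
    obtain ⟨hy1, hy2, hy3⟩ := color_props hy'
    have h2 : (QuotientAddGroup.mk (fun i => (y (pm y i) : ℤ)) : Qg N (2 * N * s)) =
      QuotientAddGroup.mk (fun i => (x (pm x i) : ℤ)) := hxy.symm
    rw [QuotientAddGroup.eq] at h2
    obtain ⟨c, l, hl, h3⟩ := h2
    obtain ⟨h4, h5⟩ := alcove_unique (x := fun i => (x i : ℤ)) (y := fun i => (y i : ℤ))
      (w := pm x) (w' := pm y) (c := c) (l := l) hx1 hy1 hx2 hy2 hl (fun i => by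
        have := h3 i
        simp only [Pi.add_apply, Pi.neg_apply] at this
        linarith)
    have h6 : c = 0 := by
      have := h5 0
      rw [hx3 0 rfl, hy3 0 rfl] at this
      omega
    funext i
    have := h5 i
    omega
  · intro q hq
    have hK := (Finset.mem_filter.1 hq).2
    have h3 : ∀ i j, i ≠ j → ¬ ((2 * N * s : ℕ) : ℤ) ∣ q.out i - q.out j := by
      intro i j hij hd
      have h4 := hK i j
      have h5 : ((2 * N : ℕ) : ℤ) ∣ ((2 * N * s : ℕ) : ℤ) := by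
        exact_mod_cast Nat.dvd_mul_right _ _
      have h6 := h5.trans hd
      have h7 : ((2 * N : ℕ) : ℤ) ∣ ((i : ℕ) : ℤ) - ((j : ℕ) : ℤ) := by
        have h8 : ((i : ℕ) : ℤ) - ((j : ℕ) : ℤ) =
          ((q.out i + (i : ℕ)) - (q.out j + (j : ℕ))) - (q.out i - q.out j) := by ring
        rw [h8]
        exact dvd_sub h4 h6
      have hi := i.isLt
      have hj := j.isLt
      have h9 : ((i : ℕ) : ℤ) - ((j : ℕ) : ℤ) = 0 := by
        apply Int.eq_zero_of_abs_lt_dvd h7
        rw [abs_lt]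
        push_cast
        constructor <;> omega
      exact hij (Fin.ext (by omega))
    obtain ⟨x, hx, w, hw⟩ := exists_color q.out hr h3
    rw [mk_out] at hw
    have h4 : InK N (fun i => (x (w i) : ℤ)) := by
      have h2 := mk_out q
      rw [← hw, QuotientAddGroup.eq] at h2
      have h5 := InK_add h2 (QuotientAddGroup.mk (fun i => (x (w i) : ℤ)) :
        Qg N (2 * N * s)).out
      rw [add_neg_cancel_left] at h5
      rw [h5, hw]
      exact hK
    have hxs := mem_supp_of_InK hx h4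
    refine ⟨x, hxs, ?_⟩
    have h5 : pm x = w := supp_perm_unique (hpm x hxs) h4
    rw [h5]
    exact hw
  · intro y hy
    apply hF.eq_of_mk_eq
    exact (mk_out _).symm

/-! ### the character sum over the coset -/

/-- indicator of divisibility -/
noncomputable def iD (m a : ℕ) : ℂ := if m ∣ a then 1 else 0

theorem card_dvd (N s : ℕ) (hN : 0 < N) :
    ∑ a : Fin (2 * N * s), iD (2 * N) (a : ℕ) = s := by
  rw [Fin.sum_univ_eq_sum_range (fun a => iD (2 * N) a) (2 * N * s)]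
  simp only [iD]
  rw [← Finset.sum_filter, Finset.sum_const, nsmul_eq_mul, mul_one]
  have h1 : (range (2 * N * s)).filter (fun a => 2 * N ∣ a) = (range s).image (fun t => 2 * N * t) := by
    ext a
    simp only [Finset.mem_filter, Finset.mem_range, Finset.mem_image]
    constructor
    · rintro ⟨h1, t, rfl⟩
      exact ⟨t, Nat.lt_of_mul_lt_mul_left h1, rfl⟩
    · rintro ⟨t, ht, rfl⟩
      exact ⟨Nat.mul_lt_mul_of_pos_left ht (by omega), dvd_mul_right _ _⟩
  rw [h1, Finset.card_image_of_injective, Finset.card_range]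
  intro t t' h
  exact Nat.eq_of_mul_eq_mul_left (by omega) h

theorem qsum_rep {n r : ℕ} [NeZero r] {F : (Fin (n + 1) → ℤ) → ℂ} (hF : Inv (n + 1) r F) :
    qsum (n + 1) r F = ∑ p : (Fin n → Fin r) × Fin (n + 1), F (Fin.cons ((r : ℤ) * ((p.2 : ℕ) : ℤ))
      (fun j => (((p.1 j : Fin r) : ℕ) : ℤ)) : Fin (n + 1) → ℤ) := by
  rw [qsum, ← Equiv.sum_comp (Equiv.ofBijective (rep n r) ⟨rep_injective n r, rep_surjective n r⟩)]
  refine Finset.sum_congr rfl fun p _ => ?_
  apply hF.eq_of_mk_eq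
  rw [mk_out]
  rfl

theorem qsum_iK0 {n s : ℕ} [NeZero (2 * (n + 1) * s)] :
    qsum (n + 1) (2 * (n + 1) * s) (iK0 (n + 1)) = ((n + 1 : ℕ) : ℂ) * (s : ℂ) ^ n := by
  classical
  rw [qsum_rep iK0_inv]
  have h1 : ∀ p : (Fin n → Fin (2 * (n + 1) * s)) × Fin (n + 1),
      iK0 (n + 1) (Fin.cons (((2 * (n + 1) * s : ℕ) : ℤ) * ((p.2 : ℕ) : ℤ))
      (fun j => (((p.1 j : Fin (2 * (n + 1) * s)) : ℕ) : ℤ)) : Fin (n + 1) → ℤ) =
      ∏ j, iD (2 * (n + 1)) ((p.1 j : Fin (2 * (n + 1) * s)) : ℕ) := by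
    intro p
    have e1 : ∏ j, iD (2 * (n + 1)) ((p.1 j : Fin (2 * (n + 1) * s)) : ℕ) =
        if (∀ j ∈ (univ : Finset (Fin n)), 2 * (n + 1) ∣ ((p.1 j : Fin (2 * (n + 1) * s)) : ℕ))
          then 1 else 0 := by
      split_ifs with h
      · refine Finset.prod_eq_one fun j hj => ?_
        rw [iD, if_pos (h j hj)]
      · push Not at h
        obtain ⟨j, hj, h2⟩ := h
        refine Finset.prod_eq_zero hj ?_
        rw [iD, if_neg h2]
    rw [iK0, e1]
    refine if_congr ?_ rfl rfl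
    have h0 : ((2 * (n + 1) : ℕ) : ℤ) ∣ ((2 * (n + 1) * s : ℕ) : ℤ) * ((p.2 : ℕ) : ℤ) := by
      refine Dvd.dvd.mul_right ?_ _
      exact_mod_cast Nat.dvd_mul_right _ _
    constructor
    · intro h j _
      have h2 := h j.succ 0
      rw [Fin.cons_succ, Fin.cons_zero, dvd_sub_left h0] at h2
      exact_mod_cast h2
    · intro h
      have h3 : ∀ i : Fin (n + 1), ((2 * (n + 1) : ℕ) : ℤ) ∣
          (Fin.cons (((2 * (n + 1) * s : ℕ) : ℤ) * ((p.2 : ℕ) : ℤ))
          (fun j => (((p.1 j : Fin (2 * (n + 1) * s)) : ℕ) : ℤ)) : Fin (n + 1) → ℤ) i := by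
        intro i
        refine Fin.cases ?_ (fun j => ?_) i
        · rw [Fin.cons_zero]; exact h0
        · rw [Fin.cons_succ]
          exact_mod_cast h j (Finset.mem_univ _)
      intro i j
      exact dvd_sub (h3 i) (h3 j)
  rw [Finset.sum_congr rfl fun p _ => h1 p]
  simp only [Fintype.sum_prod_type, Finset.sum_const, Finset.card_univ, Fintype.card_fin,
    nsmul_eq_mul]
  have h2 := Fintype.sum_pow (fun a : Fin (2 * (n + 1) * s) => iD (2 * (n + 1)) (a : ℕ)) n
  rw [card_dvd (n + 1) s (Nat.succ_pos n)] at h2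
  rw [← Finset.mul_sum, h2]

open Classical in
theorem qsum_iK0_char {n s : ℕ} [NeZero (2 * (n + 1) * s)] (e : Fin (n + 1) → ℤ) :
    qsum (n + 1) (2 * (n + 1) * s)
      (fun v => iK0 (n + 1) v * ee (-(ipZ e v) / ((2 * (n + 1) * s : ℕ) : ℝ))) =
      if e ∈ latL (n + 1) s then ((n + 1 : ℕ) : ℂ) * (s : ℂ) ^ n else 0 := by
  have hr := rne (2 * (n + 1) * s)
  have hs : (s : ℝ) ≠ 0 := by
    intro h
    apply hr
    push_cast
    rw [h, mul_zero]
  have hN : ((n : ℝ) + 1) ≠ 0 := by positivity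
  split_ifs with he
  · rw [← qsum_iK0 (n := n) (s := s)]
    congr 1
    funext v
    by_cases hv : K0 (n + 1) v
    · have h1 : ee (-(ipZ e v) / ((2 * (n + 1) * s : ℕ) : ℝ)) = 1 := by
        choose g hg using fun i => hv i 0
        have h2 : v = (fun _ => v 0) + ((2 * (n + 1) : ℕ) : ℤ) • g := by
          funext i
          simp only [Pi.add_apply, Pi.smul_apply, smul_eq_mul]
          have := hg i
          linarith
        obtain ⟨k, hk⟩ := exists_ipZ_lat g he
        rw [h2, ipZ_add_right, ipZ_const, ipZ_smul_right, ipZ_comm, hk, zero_add]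
        have h3 : -(((((2 * (n + 1) : ℕ) : ℤ)) : ℝ) * (s * k)) / ((2 * (n + 1) * s : ℕ) : ℝ) =
            ((-k : ℤ) : ℝ) := by
          push_cast
          field_simp
        rw [h3, ee_int]
      rw [h1, mul_one]
    · rw [iK0, if_neg hv, zero_mul]
  · have h1 : ∃ g : Fin (n + 1) → ℤ, ¬ ∃ k : ℤ, ipZ g e = s * k := by
      by_contra hcon
      push Not at hcon
      exact he (mem_latL_of_forall hcon)
    obtain ⟨g, hg⟩ := h1
    set b : Fin (n + 1) → ℤ := ((2 * (n + 1) : ℕ) : ℤ) • g with hb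
    have hbK : K0 (n + 1) b := by
      intro i j
      simp only [hb, Pi.smul_apply, smul_eq_mul]
      rw [← mul_sub]
      exact dvd_mul_right _ _
    set c : ℂ := ee (-(ipZ e b) / ((2 * (n + 1) * s : ℕ) : ℝ)) with hc
    have hc1 : c ≠ 1 := by
      intro h
      obtain ⟨k, hk⟩ := ee_eq_one h
      apply hg
      refine ⟨-k, ?_⟩
      rw [ipZ_comm]
      rw [hb, ipZ_smul_right, div_eq_iff hr] at hk
      push_cast at hk ⊢
      have : (2 * ((n : ℝ) + 1)) * ipZ e g = (2 * ((n : ℝ) + 1)) * (s * -k) := by linarith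
      exact mul_left_cancel₀ (by positivity) this
    set F : (Fin (n + 1) → ℤ) → ℂ :=
      fun v => iK0 (n + 1) v * ee (-(ipZ e v) / ((2 * (n + 1) * s : ℕ) : ℝ)) with hF
    have hFinv : Inv (n + 1) (2 * (n + 1) * s) F := by
      intro v l hl
      simp only [hF]
      rw [iK0_inv v l hl]
      congr 1
      obtain ⟨k, hk⟩ := exists_ipZ_lat e hl
      rw [ipZ_add_right, hk]
      have : -(ipZ e v + ((2 * (n + 1) * s : ℕ) : ℝ) * k) / ((2 * (n + 1) * s : ℕ) : ℝ) =
          -(ipZ e v) / ((2 * (n + 1) * s : ℕ) : ℝ) + ((-k : ℤ) : ℝ) := by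
        push_cast at hr ⊢
        field_simp
        ring
      rw [this, ee_add_int]
    have h2 := qsum_shift hFinv b
    have h3 : (fun v => F (v + b)) = fun v => c * F v := by
      funext v
      simp only [hF]
      have e1 : iK0 (n + 1) (v + b) = iK0 (n + 1) v := by
        exact iK0_congr (K0_add hbK v)
      rw [e1, ipZ_add_right, neg_add, add_div, ee_add]
      ring
    rw [h3, qsum_mul_left] at h2
    have h4 : (c - 1) * qsum (n + 1) (2 * (n + 1) * s) F = 0 := by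
      rw [sub_mul, h2, one_mul, sub_self]
    exact (mul_eq_zero.1 h4).resolve_left (sub_ne_zero.2 hc1)

open Classical in
/-- the character sum over the coset -/
theorem qsum_iK_char {n s : ℕ} [NeZero (2 * (n + 1) * s)] (e : Fin (n + 1) → ℤ) :
    qsum (n + 1) (2 * (n + 1) * s)
      (fun v => iK (n + 1) v * ee (-(ipZ e v) / ((2 * (n + 1) * s : ℕ) : ℝ))) =
      ee (-(ipZ e (bb (n + 1))) / ((2 * (n + 1) * s : ℕ) : ℝ)) *
        if e ∈ latL (n + 1) s then ((n + 1 : ℕ) : ℂ) * (s : ℂ) ^ n else 0 := by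
  have hr := rne (2 * (n + 1) * s)
  have hs : (s : ℝ) ≠ 0 := by
    intro h
    apply hr
    push_cast
    rw [h, mul_zero]
  set F : (Fin (n + 1) → ℤ) → ℂ :=
    fun v => iK (n + 1) v * ee (-(ipZ e v) / ((2 * (n + 1) * s : ℕ) : ℝ)) with hF
  have hFinv : Inv (n + 1) (2 * (n + 1) * s) F := by
    intro v l hl
    simp only [hF]
    rw [iK_inv v l hl]
    congr 1
    obtain ⟨k, hk⟩ := exists_ipZ_lat e hl
    rw [ipZ_add_right, hk]
    have : -(ipZ e v + ((2 * (n + 1) * s : ℕ) : ℝ) * k) / ((2 * (n + 1) * s : ℕ) : ℝ) =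
        -(ipZ e v) / ((2 * (n + 1) * s : ℕ) : ℝ) + ((-k : ℤ) : ℝ) := by
      push_cast at hr ⊢
      field_simp
      ring
    rw [this, ee_add_int]
  rw [← qsum_shift hFinv (bb (n + 1)), ← qsum_iK0_char e, ← qsum_mul_left]
  congr 1
  funext v
  simp only [hF]
  rw [iK_add_bb, ipZ_add_right, neg_add, add_div, ee_add]
  ring

end Pool.Agent.Helper24.RTG
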