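import Mathlib
import Pool.Agent.Helper24.RTG.Coset
import Pool.Agent.Helper24.RTG.Cnt

/-!
# Ratios of entries of the S-matrix as sums of characters
-/

open Finset
open scoped Real

namespace Pool.Agent.Helper24.RTG

open Pool.Agent.Helper15.AllN Pool.Agent.Helper15.RT Pool.Agent.Helper21.AEC

/-- the normalised character -/
noncomputable def Fx (N r : ℕ) (x : Fin N → ℕ) (v : Fin N → ℤ) : ℂ :=
  ∑ e ∈ Fintype.piFinset (fun _ : Fin N => range r), (cnt N x e : ℂ) * ee (-(ipZ (zc e) v) / r)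

theorem ee_sum {ι : Type*} (s : Finset ι) (f : ι → ℝ) : ee (∑ i ∈ s, f i) = ∏ i ∈ s, ee (f i) := by
  classical
  induction s using Finset.induction_on with
  | empty => simp
  | insert a s ha ih => rw [Finset.sum_insert ha, Finset.prod_insert ha, ee_add, ih]

theorem alt_det (N r : ℕ) (x : Fin N → ℕ) (v : Fin N → ℤ) : alt N r 1 (zc x) v =
    ee ((∑ i, (x i : ℝ)) * (∑ i, (v i : ℝ)) / (N * r)) *
      Matrix.det (Matrix.of fun i j : Fin N => ee (-(v j : ℝ) / r) ^ x i) := by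
  rw [alt, Matrix.det_apply, Finset.mul_sum]
  refine Finset.sum_congr rfl fun w _ => ?_
  rw [Units.smul_def, zsmul_eq_mul, mul_left_comm]
  have h0 : (((Equiv.Perm.sign w : ℤˣ) : ℤ) : ℂ) = sg w := rfl
  rw [h0]
  congr 1
  have h1 : ∏ i, (Matrix.of fun i j : Fin N => ee (-(v j : ℝ) / r) ^ x i) (w i) i =
      ee (∑ i, (x (w i) : ℝ) * (-(v i : ℝ) / r)) := by
    rw [ee_sum]
    refine Finset.prod_congr rfl fun i _ => ?_
    rw [Matrix.of_apply, ee_natMul]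
  rw [h1, ← ee_add]
  congr 1
  rw [ipZ]
  have h2 : ∑ i, ((zc x (w i) : ℤ) : ℝ) = ∑ i, (x i : ℝ) := by
    have := Equiv.sum_comp w fun i => (x i : ℝ)
    rw [← this]
    exact Finset.sum_congr rfl fun i _ => by simp [zc]
  have h3 : ∑ i, (x (w i) : ℝ) * (-(v i : ℝ) / r) = -(∑ i, ((zc x (w i) : ℤ) : ℝ) * v i) / r := by
    rw [neg_div, Finset.sum_div, ← Finset.sum_neg_distrib]
    refine Finset.sum_congr rfl fun i _ => ?_
    simp only [zc]
    push_cast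
    ring
  rw [h2, h3]
  push_cast
  ring

theorem alt_vac (N r : ℕ) (v : Fin N → ℤ) : alt N r 1 (zc (vac N)) v =
    ee ((∑ i : Fin N, ((i : ℕ) : ℝ)) * (∑ i, (v i : ℝ)) / (N * r)) *
      ∏ i, ∏ j ∈ Ioi i, (ee (-(v j : ℝ) / r) - ee (-(v i : ℝ) / r)) := by
  rw [alt_det]
  congr 1
  have : Matrix.det (Matrix.of fun i j : Fin N => ee (-(v j : ℝ) / r) ^ vac N i) =
      Matrix.det (Matrix.vandermonde fun j : Fin N => ee (-(v j : ℝ) / r)) := by
    rw [← Matrix.det_transpose]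
    congr 1
  rw [this, Matrix.det_vandermonde]

theorem alt_eq {N r : ℕ} {x : Fin N → ℕ} (hx : StrictMono x) (hxr : ∀ i, x i < r)
    (v : Fin N → ℤ) : alt N r 1 (zc x) v = Fx N r x v * alt N r 1 (zc (vac N)) v := by
  rw [alt_det, det_cnt N x hx r hxr, alt_vac, Fx]
  set V := ∏ i, ∏ j ∈ Ioi i, (ee (-(v j : ℝ) / r) - ee (-(v i : ℝ) / r)) with hV
  set A := ee ((∑ i, (x i : ℝ)) * (∑ i, (v i : ℝ)) / (N * r)) with hA
  set B := ee ((∑ i : Fin N, ((i : ℕ) : ℝ)) * (∑ i, (v i : ℝ)) / (N * r)) with hB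
  have key : A * ∑ e ∈ Fintype.piFinset (fun _ : Fin N => range r), (cnt N x e : ℂ) *
        ∏ i, ee (-(v i : ℝ) / r) ^ e i =
      (∑ e ∈ Fintype.piFinset (fun _ : Fin N => range r), (cnt N x e : ℂ) *
        ee (-(ipZ (zc e) v) / r)) * B := by
    rw [Finset.mul_sum, Finset.sum_mul]
    refine Finset.sum_congr rfl fun e _ => ?_
    by_cases hc : cnt N x e = 0
    · rw [hc]; simp
    rw [mul_left_comm, mul_assoc]
    congr 1
    have h1 : ∏ i, ee (-(v i : ℝ) / r) ^ e i = ee (∑ i, (e i : ℝ) * (-(v i : ℝ) / r)) := by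
      rw [ee_sum]
      refine Finset.prod_congr rfl fun i _ => ?_
      rw [ee_natMul]
    rw [h1, hA, hB, ← ee_add, ← ee_add]
    congr 1
    have h2 : (∑ i, (e i : ℝ)) + ∑ i : Fin N, ((i : ℕ) : ℝ) = ∑ i, (x i : ℝ) := by
      have := cnt_sum N x e hx hc
      exact_mod_cast this
    have h3 : ∑ i, (e i : ℝ) * (-(v i : ℝ) / r) = -(∑ i, (e i : ℝ) * v i) / r := by
      rw [neg_div, Finset.sum_div, ← Finset.sum_neg_distrib]
      refine Finset.sum_congr rfl fun i _ => ?_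
      ring
    have h4 : ipZ (zc e) v = (∑ i, (e i : ℝ) * v i) - (∑ i, (e i : ℝ)) * (∑ i, (v i : ℝ)) / N := by
      simp [ipZ, zc]
    rw [h3, h4, ← h2]
    ring
  linear_combination V * key

theorem Fx_inv {N r : ℕ} [NeZero N] [NeZero r] (x : Fin N → ℕ) : Inv N r (Fx N r x) := by
  intro v l hl
  rw [Fx, Fx]
  refine Finset.sum_congr rfl fun e _ => ?_
  obtain ⟨k, hk⟩ := exists_ipZ_lat (zc e) hl
  have hr := rne r
  rw [ipZ_add_right, hk]
  have : -(ipZ (zc e) v + r * k) / r = -(ipZ (zc e) v) / r + ((-k : ℤ) : ℝ) := by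
    push_cast
    field_simp
    ring
  rw [this, ee_add_int]

theorem S0_norm {n r : ℕ} (hr : 0 < r) {x : Fin (n + 1) → ℕ} (hx : x ∈ colors (n + 1) r) :
    S0 (n + 1) r x = ‖D (n + 1) r (vac (n + 1)) x‖ / nrm (n + 1) r := by
  have h1 := S0_eq (Nat.succ_pos n) hr hx
  rw [Smat_vac (Nat.succ_pos n) hr hx] at h1
  exact_mod_cast h1

theorem S0_pos {n r : ℕ} (hr : 0 < r) {x : Fin (n + 1) → ℕ} (hx : x ∈ colors (n + 1) r) :
    0 < S0 (n + 1) r x := by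
  rw [S0_norm hr hx]
  exact div_pos (norm_D_vac_pos hx hr) (nrm_pos (Nat.succ_pos n) hr)

theorem pf_ne {n r : ℕ} (hr : 0 < r) : pf (n + 1) r ≠ 0 := by
  intro h
  have h1 := norm_pf (N := n + 1) (r := r)
  rw [h, norm_zero] at h1
  have h2 := nrm_pos (Nat.succ_pos n) hr
  exact (inv_pos.2 h2).ne' h1.symm

theorem alt_vac_ne {n r : ℕ} (hr : 0 < r) {x : Fin (n + 1) → ℕ} (hx : x ∈ colors (n + 1) r) :
    alt (n + 1) r 1 (zc (vac (n + 1))) (zc x) ≠ 0 := by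
  intro h
  have h1 := S0_eq (Nat.succ_pos n) hr hx
  rw [Smat_alt, h, mul_zero] at h1
  have h2 := (S0_pos hr hx).ne'
  exact h2 (by exact_mod_cast h1)

/-- the ratio, computed for a permuted second argument -/
theorem ratio_right {n r : ℕ} (hr : 0 < r) {x y : Fin (n + 1) → ℕ} (hx : x ∈ colors (n + 1) r)
    (hy : y ∈ colors (n + 1) r) (σ : Equiv.Perm (Fin (n + 1))) :
    Smat (n + 1) r x y / (S0 (n + 1) r y : ℂ) = Fx (n + 1) r x (fun i => (y (σ i) : ℤ)) := by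
  have hx' := mem_colors.1 hx
  rw [S0_eq (Nat.succ_pos n) hr hy, Smat_alt, Smat_alt, mul_div_mul_left _ _ (pf_ne hr)]
  have h1 : (fun i => (y (σ i) : ℤ)) = fun i => zc y (σ i) := rfl
  have h2 := alt_eq hx'.2.1 hx'.1 (fun i => zc y (σ i))
  rw [alt_perm_right, alt_perm_right] at h2
  have h3 : sg σ ≠ 0 := by
    intro h
    have := norm_sg σ
    rw [h, norm_zero] at this
    exact zero_ne_one this
  have h4 := alt_vac_ne hr hy
  rw [h1, div_eq_iff h4]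
  apply mul_left_cancel₀ h3
  rw [h2]
  ring

/-- the ratio, computed for a permuted first argument -/
theorem ratio_left {n r : ℕ} (hr : 0 < r) {x y : Fin (n + 1) → ℕ} (hx : x ∈ colors (n + 1) r)
    (hy : y ∈ colors (n + 1) r) (σ : Equiv.Perm (Fin (n + 1))) :
    Smat (n + 1) r x y / (S0 (n + 1) r x : ℂ) = Fx (n + 1) r y (fun i => (x (σ i) : ℤ)) := by
  rw [← ratio_right hr hy hx σ, Smat_alt, Smat_alt, alt_comm]

open Classical in
/-- the sum over the weights in the coarse lattice -/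
noncomputable def YY (n s : ℕ) (x : Fin (n + 1) → ℕ) : ℂ :=
  ∑ e ∈ Fintype.piFinset (fun _ : Fin (n + 1) => range (2 * (n + 1) * s)),
    if zc e ∈ latL (n + 1) s then (cnt (n + 1) x e : ℂ) *
      ee (-(ipZ (zc e) (bb (n + 1))) / ((2 * (n + 1) * s : ℕ) : ℝ)) else 0

theorem sum_supp_ratio {n s : ℕ} (hs : 0 < s) {x : Fin (n + 1) → ℕ}
    (hx : x ∈ colors (n + 1) (2 * (n + 1) * s)) :
    ∑ y ∈ supp (n + 1) (2 * (n + 1) * s), Smat (n + 1) (2 * (n + 1) * s) x y /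
      (S0 (n + 1) (2 * (n + 1) * s) y : ℂ) = (((n + 1 : ℕ) : ℂ) * (s : ℂ) ^ n) * YY n s x := by
  classical
  have hr : 0 < 2 * (n + 1) * s := by positivity
  have : NeZero (2 * (n + 1) * s) := ⟨hr.ne'⟩
  choose! pm hpm using fun (y : Fin (n + 1) → ℕ) (hy : y ∈ supp (n + 1) (2 * (n + 1) * s)) =>
    exists_perm_of_mem_supp hy
  have h1 : ∀ y ∈ supp (n + 1) (2 * (n + 1) * s), Smat (n + 1) (2 * (n + 1) * s) x y /
      (S0 (n + 1) (2 * (n + 1) * s) y : ℂ) =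
      Fx (n + 1) (2 * (n + 1) * s) x (fun i => (y (pm y i) : ℤ)) := fun y hy =>
    ratio_right hr hx (mem_supp.1 hy).1 (pm y)
  rw [Finset.sum_congr rfl h1, supp_sum (Fx_inv x) pm hpm]
  have h2 : (fun v => iK (n + 1) v * Fx (n + 1) (2 * (n + 1) * s) x v) = fun v =>
      ∑ e ∈ Fintype.piFinset (fun _ : Fin (n + 1) => range (2 * (n + 1) * s)),
        (cnt (n + 1) x e : ℂ) * (iK (n + 1) v *
          ee (-(ipZ (zc e) v) / ((2 * (n + 1) * s : ℕ) : ℝ))) := by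
    funext v
    rw [Fx, Finset.mul_sum]
    exact Finset.sum_congr rfl fun e _ => by ring
  rw [h2, qsum_sum, YY, Finset.mul_sum]
  refine Finset.sum_congr rfl fun e _ => ?_
  rw [qsum_mul_left, qsum_iK_char]
  split_ifs
  · ring
  · ring

/-! ### rotation invariance -/

theorem supp_dvd {n s : ℕ} {y : Fin (n + 1) → ℕ}
    (hy : y ∈ supp (n + 1) (2 * (n + 1) * s)) :
    ((n + 1 : ℕ) : ℤ) ∣ ∑ i, (y i : ℤ) - ∑ i : Fin (n + 1), ((i : ℕ) : ℤ) := by
  obtain ⟨σ, hσ⟩ := exists_perm_of_mem_supp hy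
  choose k hk using fun i => hσ i 0
  have h1 : ∑ i, (y i : ℤ) = ∑ i, (y (σ i) : ℤ) := (Equiv.sum_comp σ fun i => (y i : ℤ)).symm
  have h2 : ∀ i, (y (σ i) : ℤ) = ((y (σ 0) : ℤ) + (((0 : Fin (n + 1)) : ℕ) : ℤ) +
      ((2 * (n + 1) : ℕ) : ℤ) * k i) - ((i : ℕ) : ℤ) := by
    intro i
    have := hk i
    linarith
  have h3 : (∑ i : Fin (n + 1), ((i : ℕ) : ℤ)) * 2 = ((n + 1 : ℕ) : ℤ) * n := by
    rw [Fin.sum_univ_eq_sum_range (fun i => (i : ℤ)) (n + 1)]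
    have h2 := Finset.sum_range_id_mul_two (n + 1)
    rw [Nat.add_sub_cancel] at h2
    have h5 : (((∑ i ∈ range (n + 1), i) * 2 : ℕ) : ℤ) = (((n + 1) * n : ℕ) : ℤ) := by rw [h2]
    rw [Nat.cast_mul, Nat.cast_mul, Nat.cast_sum] at h5
    exact h5
  rw [h1, Finset.sum_congr rfl fun i _ => h2 i, Finset.sum_sub_distrib, Finset.sum_add_distrib,
    Finset.sum_const, Finset.card_univ, Fintype.card_fin, nsmul_eq_mul, ← Finset.mul_sum]
  refine ⟨(y (σ 0) : ℤ) + (((0 : Fin (n + 1)) : ℕ) : ℤ) + 2 * ∑ i, k i - n, ?_⟩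
  have h4 : ∀ a b : ℤ, a - b - b = a - b * 2 := by intro a b; ring
  rw [h4, h3]
  push_cast
  ring

theorem Fx_add_smul {n r : ℕ} [NeZero r] {y : Fin (n + 1) → ℕ} (hy : StrictMono y)
    (hd : ((n + 1 : ℕ) : ℤ) ∣ ∑ i, (y i : ℤ) - ∑ i : Fin (n + 1), ((i : ℕ) : ℤ))
    (v δ : Fin (n + 1) → ℤ) :
    Fx (n + 1) r y (v + (r : ℤ) • δ) = Fx (n + 1) r y v := by
  rw [Fx, Fx]
  refine Finset.sum_congr rfl fun e _ => ?_
  by_cases hc : cnt (n + 1) y e = 0
  · rw [hc]; simp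
  congr 1
  have hr := rne r
  obtain ⟨k, hk⟩ := hd
  have h1 : ∑ i, (e i : ℤ) = ((n + 1 : ℕ) : ℤ) * k := by
    have := cnt_sum (n + 1) y e hy hc
    have h2 : ∑ i, (e i : ℤ) + ∑ i : Fin (n + 1), ((i : ℕ) : ℤ) = ∑ i, (y i : ℤ) := by
      exact_mod_cast this
    linarith
  have h2 : ipZ (zc e) δ = ((∑ i, (e i : ℤ) * δ i - k * ∑ i, δ i : ℤ) : ℝ) := by
    have h3 : ∑ i, (((e i : ℕ) : ℤ) : ℝ) = ((n + 1 : ℕ) : ℝ) * k := by exact_mod_cast h1
    rw [ipZ]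
    simp only [zc]
    rw [h3]
    push_cast
    have : ((n : ℝ) + 1) ≠ 0 := by positivity
    field_simp
  rw [ipZ_add_right, ipZ_smul_right, h2]
  have h4 : ∀ (a : ℝ) (b : ℤ), -(a + ((r : ℤ) : ℝ) * (b : ℝ)) / r = -a / r + ((-b : ℤ) : ℝ) := by
    intro a b
    push_cast
    field_simp
    ring
  rw [h4, ee_add_int]

theorem Fx_add_const {n r : ℕ} (y : Fin (n + 1) → ℕ) (v : Fin (n + 1) → ℤ) (c : ℤ) :
    Fx (n + 1) r y (v + fun _ => c) = Fx (n + 1) r y v := by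
  rw [Fx, Fx]
  refine Finset.sum_congr rfl fun e _ => ?_
  rw [ipZ_add_right, ipZ_const, add_zero]

/-- rotation invariance of the ratio -/
theorem ratio_rotm {n s : ℕ} (hs : 0 < s) {x y : Fin (n + 1) → ℕ}
    (hx : x ∈ colors (n + 1) (2 * (n + 1) * s)) (hy : y ∈ supp (n + 1) (2 * (n + 1) * s)) (m : ℕ) :
    Smat (n + 1) (2 * (n + 1) * s) (rotm n (2 * (n + 1) * s) m x) y /
      (S0 (n + 1) (2 * (n + 1) * s) (rotm n (2 * (n + 1) * s) m x) : ℂ) =
    Smat (n + 1) (2 * (n + 1) * s) x y / (S0 (n + 1) (2 * (n + 1) * s) x : ℂ) := by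
  have hr : 0 < 2 * (n + 1) * s := by positivity
  have i1 : NeZero (2 * (n + 1) * s) := ⟨hr.ne'⟩
  set r := 2 * (n + 1) * s with hrdef
  have hyc := (mem_supp.1 hy).1
  have hys := (mem_colors.1 hyc).2.1
  set a : Fin (n + 1) := ⟨m % (n + 1), Nat.mod_lt _ (Nat.succ_pos n)⟩ with ha
  have e1 := ratio_left hr (rotm_mem (m := m) hx) hyc 1
  have e2 := ratio_left hr hx hyc (Equiv.addLeft a)
  rw [e1, e2]
  have hmono := ext_strictMono hx
  have h1 : (fun i => ((rotm n r m x ((1 : Equiv.Perm (Fin (n + 1))) i) : ℕ) : ℤ)) =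
      ((fun i => (x (Equiv.addLeft a i) : ℤ)) +
        (r : ℤ) • (fun i : Fin (n + 1) => (((m + (i : ℕ)) / (n + 1) : ℕ) : ℤ))) +
        fun _ => -((ext n r x m : ℕ) : ℤ) := by
    funext i
    simp only [Equiv.Perm.one_apply, Equiv.coe_addLeft, Pi.add_apply, Pi.smul_apply, smul_eq_mul]
    have h2 : ext n r x m ≤ ext n r x (m + i) := hmono.monotone (by omega)
    have h4 : a + i = ⟨(m + i) % (n + 1), Nat.mod_lt _ (Nat.succ_pos n)⟩ := by
      apply Fin.ext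
      simp [ha, Fin.val_add]
    rw [h4]
    simp only [rotm]
    rw [Nat.cast_sub h2]
    have h5 : ext n r x (m + i) = x ⟨(m + i) % (n + 1), Nat.mod_lt _ (Nat.succ_pos n)⟩ +
      r * ((m + i) / (n + 1)) := rfl
    rw [h5]
    push_cast
    ring
  rw [h1, Fx_add_const, Fx_add_smul hys (supp_dvd hy)]

end Pool.Agent.Helper24.RTG
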