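import Mathlib
import Pool.Agent.Helper24.RTG.Ratio
import Pool.Agent.Helper24.RTG.CntUpper

/-!
# Bounds for the summands
-/

open Finset
open scoped Real

namespace Pool.Agent.Helper24.RTG

open Pool.Agent.Helper15.AllN Pool.Agent.Helper15.RT Pool.Agent.Helper21.AEC

open Classical in
/-- the weights which contribute -/
noncomputable def wts (n s : ℕ) (x : Fin (n + 1) → ℕ) : Finset (Fin (n + 1) → ℕ) :=
  (Fintype.piFinset (fun _ : Fin (n + 1) => range (2 * (n + 1) * s))).filter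
    fun e => zc e ∈ latL (n + 1) s ∧ cnt (n + 1) x e ≠ 0

theorem YY_eq (n s : ℕ) (x : Fin (n + 1) → ℕ) : YY n s x =
    ∑ e ∈ wts n s x, (cnt (n + 1) x e : ℂ) *
      ee (-(ipZ (zc e) (bb (n + 1))) / ((2 * (n + 1) * s : ℕ) : ℝ)) := by
  classical
  rw [YY, wts, Finset.sum_filter]
  refine Finset.sum_congr rfl fun e _ => ?_
  by_cases h1 : zc e ∈ latL (n + 1) s
  · by_cases h2 : cnt (n + 1) x e = 0
    · rw [if_pos h1, if_neg (fun h => h.2 h2), h2]
      simp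
    · rw [if_pos h1, if_pos ⟨h1, h2⟩]
  · rw [if_neg h1, if_neg (fun h => h1 h.1)]

theorem mem_wts {n s : ℕ} {x e : Fin (n + 1) → ℕ} : e ∈ wts n s x ↔
    (∀ i, e i < 2 * (n + 1) * s) ∧ zc e ∈ latL (n + 1) s ∧ cnt (n + 1) x e ≠ 0 := by
  simp only [wts, Finset.mem_filter, Fintype.mem_piFinset, Finset.mem_range]

theorem card_wts_le {n s : ℕ} (hs : 0 < s) {x : Fin (n + 1) → ℕ} (hx : StrictMono x) :
    #(wts n s x) ≤ (2 * (n + 1)) ^ (n + 1) := by
  classical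
  have hcard : #(Fintype.piFinset (fun _ : Fin (n + 1) => range (2 * (n + 1)))) =
      (2 * (n + 1)) ^ (n + 1) := by
    rw [Fintype.card_piFinset]
    simp
  rw [← hcard]
  refine Finset.card_le_card_of_injOn (fun e i => e i / s) ?_ ?_
  · intro e he
    have h1 := mem_wts.1 he
    refine Finset.mem_coe.2 (Fintype.mem_piFinset.2 fun i => ?_)
    rw [Finset.mem_range]
    exact Nat.div_lt_of_lt_mul (by rw [mul_comm]; exact h1.1 i)
  · intro e he e' he' h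
    obtain ⟨-, ⟨c, l, hl, h1⟩, h2⟩ := mem_wts.1 he
    obtain ⟨-, ⟨c', l', hl', h1'⟩, h2'⟩ := mem_wts.1 he'
    have s1 := cnt_sum (n + 1) x e hx h2
    have s2 := cnt_sum (n + 1) x e' hx h2'
    have t1 : ∑ i, (zc e i) = (n + 1) * c := by
      rw [Finset.sum_congr rfl fun i _ => h1 i, Finset.sum_add_distrib, ← Finset.mul_sum, hl]
      simp
    have t2 : ∑ i, (zc e' i) = (n + 1) * c' := by
      rw [Finset.sum_congr rfl fun i _ => h1' i, Finset.sum_add_distrib, ← Finset.mul_sum, hl']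
      simp
    have t3 : ∑ i, (zc e i) = ∑ i, (zc e' i) := by
      have : ∑ i, e i = ∑ i, e' i := by omega
      simp only [zc]
      exact_mod_cast this
    have hc : c = c' := by
      rw [t1, t2] at t3
      exact mul_left_cancel₀ (by positivity) t3
    subst hc
    have hs' : (0 : ℤ) < s := by exact_mod_cast hs
    funext i
    have h3 : e i / s = e' i / s := congrFun h i
    have e1 := h1 i
    have e2 := h1' i
    simp only [zc] at e1 e2
    have h4 : (e i : ℤ) % s = (e' i : ℤ) % s := by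
      rw [e1, e2]
      simp
    have h5 : e i % s = e' i % s := by exact_mod_cast h4
    rw [← Nat.div_add_mod (e i) s, ← Nat.div_add_mod (e' i) s, h3, h5]

theorem norm_YY_le {n s : ℕ} (hs : 0 < s) {x : Fin (n + 1) → ℕ} (hx : StrictMono x) {C : ℝ}
    (hC : 0 ≤ C) (h : ∀ e, (cnt (n + 1) x e : ℝ) ≤ C) :
    ‖YY n s x‖ ≤ ((2 * (n + 1) : ℕ) : ℝ) ^ (n + 1) * C := by
  rw [YY_eq]
  refine (norm_sum_le _ _).trans ?_
  have h1 : ∀ e ∈ wts n s x, ‖(cnt (n + 1) x e : ℂ) *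
      ee (-(ipZ (zc e) (bb (n + 1))) / ((2 * (n + 1) * s : ℕ) : ℝ))‖ ≤ C := by
    intro e _
    rw [norm_mul, norm_ee, mul_one, Complex.norm_natCast]
    exact h e
  refine (Finset.sum_le_sum h1).trans ?_
  rw [Finset.sum_const, nsmul_eq_mul]
  refine mul_le_mul_of_nonneg_right ?_ hC
  exact_mod_cast card_wts_le hs hx

/-- near the corner only the zero weight contributes -/
theorem corner_YY {n s : ℕ} {x : Fin (n + 1) → ℕ} (hx : StrictMono x) (hxs : ∀ i, x i < s) :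
    ∃ M : ℕ, YY n s x = (M : ℂ) ∧ ∀ h : ℕ, cnt (n + 1) x (fun _ => h) ≤ M := by
  classical
  have hs : 0 < s := lt_of_le_of_lt (Nat.zero_le _) (hxs 0)
  refine ⟨∑ e ∈ wts n s x, cnt (n + 1) x e, ?_, ?_⟩
  · rw [YY_eq]
    push_cast
    refine Finset.sum_congr rfl fun e he => ?_
    obtain ⟨-, ⟨c, l, hl, h1⟩, h2⟩ := mem_wts.1 he
    have hb := cnt_bounds (n + 1) x e hx h2 0 (s - 1) (fun _ => Nat.zero_le _)
      (fun i => by have := hxs i; omega)
    have h3 : ∀ i, e i = e 0 := by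
      intro i
      have b1 := (hb i).2
      have b2 := (hb 0).2
      have e1 := h1 i
      have e2 := h1 0
      simp only [zc] at e1 e2
      have h4 : (e i : ℤ) - e 0 = s * (l i - l 0) := by linarith
      have h5 : (e i : ℤ) - e 0 = 0 := by
        apply Int.eq_zero_of_abs_lt_dvd ⟨_, h4⟩
        rw [abs_lt]
        constructor <;> omega
      omega
    have h4 : ipZ (zc e) (bb (n + 1)) = 0 := by
      have : zc e = fun _ => ((e 0 : ℕ) : ℤ) := by
        funext i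
        simp only [zc, h3 i]
      rw [this, ipZ_comm, ipZ_const]
    rw [h4]
    simp
  · intro h
    by_cases hc : cnt (n + 1) x (fun _ => h) = 0
    · rw [hc]
      exact Nat.zero_le _
    · have hb := (cnt_bounds (n + 1) x _ hx hc 0 (s - 1) (fun _ => Nat.zero_le _)
        (fun i => by have := hxs i; omega) 0).2
      have hmem : (fun _ => h : Fin (n + 1) → ℕ) ∈ wts n s x := by
        rw [mem_wts]
        refine ⟨fun _ => ?_, ⟨h, 0, by simp, fun i => by simp [zc]⟩, hc⟩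
        have : s ≤ 2 * (n + 1) * s := Nat.le_mul_of_pos_left _ (by omega)
        omega
      exact Finset.single_le_sum (f := fun e => cnt (n + 1) x e) (fun _ _ => Nat.zero_le _) hmem

/-- the normalised summand -/
noncomputable def gg (n s : ℕ) (x : Fin (n + 1) → ℕ) : ℂ :=
  YY n s x / ((‖D (n + 1) (2 * (n + 1) * s) (vac (n + 1)) x‖ : ℝ) : ℂ)

/-- the constant relating the two normalisations -/
noncomputable def cc (n s : ℕ) : ℝ := ((n + 1 : ℕ) : ℝ) * (s : ℝ) ^ n * nrm (n + 1) (2 * (n + 1) * s)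

theorem cc_pos {n s : ℕ} (hs : 0 < s) : 0 < cc n s := by
  rw [cc]
  have := nrm_pos (Nat.succ_pos n) (show 0 < 2 * (n + 1) * s by positivity)
  positivity

theorem sum_eq_gg {n s : ℕ} (hs : 0 < s) {x : Fin (n + 1) → ℕ}
    (hx : x ∈ colors (n + 1) (2 * (n + 1) * s)) :
    ∑ y ∈ supp (n + 1) (2 * (n + 1) * s), Smat (n + 1) (2 * (n + 1) * s) x y /
      ((S0 (n + 1) (2 * (n + 1) * s) x : ℂ) * (S0 (n + 1) (2 * (n + 1) * s) y : ℂ)) =
      (cc n s : ℂ) * gg n s x := by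
  have hr : 0 < 2 * (n + 1) * s := by positivity
  have h1 : ∀ y ∈ supp (n + 1) (2 * (n + 1) * s), Smat (n + 1) (2 * (n + 1) * s) x y /
      ((S0 (n + 1) (2 * (n + 1) * s) x : ℂ) * (S0 (n + 1) (2 * (n + 1) * s) y : ℂ)) =
      (S0 (n + 1) (2 * (n + 1) * s) x : ℂ)⁻¹ * (Smat (n + 1) (2 * (n + 1) * s) x y /
        (S0 (n + 1) (2 * (n + 1) * s) y : ℂ)) := by
    intro y _
    rw [div_eq_mul_inv, div_eq_mul_inv, mul_inv]
    ring
  rw [Finset.sum_congr rfl h1, ← Finset.mul_sum, sum_supp_ratio hs hx, S0_norm hr hx, gg, cc]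
  push_cast
  rw [inv_div]
  ring

theorem gg_rotm {n s : ℕ} (hs : 0 < s) {x : Fin (n + 1) → ℕ}
    (hx : x ∈ colors (n + 1) (2 * (n + 1) * s)) (m : ℕ) :
    gg n s (rotm n (2 * (n + 1) * s) m x) = gg n s x := by
  have hc : (cc n s : ℂ) ≠ 0 := by exact_mod_cast (cc_pos hs).ne'
  apply mul_left_cancel₀ hc
  rw [← sum_eq_gg hs hx, ← sum_eq_gg hs (rotm_mem hx)]
  refine Finset.sum_congr rfl fun y hy => ?_
  rw [← div_div, ← div_div, ratio_rotm hs hx hy m]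

/-- number of pairs -/
def PP (n : ℕ) : ℕ := ∑ i : Fin (n + 1), #(Ioi i)

theorem two_PP (n : ℕ) : 2 * PP n = (n + 1) * n := by
  have := card_pairs (n + 1)
  rwa [Nat.add_sub_cancel] at this

/-- the constant in the bounds -/
noncomputable def C1 (n s : ℕ) : ℝ := ((2 * (n + 1) : ℕ) : ℝ) ^ (n + 1) *
  (((n + 1 : ℕ) : ℝ) * ((2 * (n + 1) * s : ℕ) : ℝ) / 4) ^ PP n

theorem C1_nonneg (n s : ℕ) : 0 ≤ C1 n s := by
  rw [C1]
  positivity

theorem norm_gg_le {n s : ℕ} (hs : 0 < s) {x : Fin (n + 1) → ℕ}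
    (hx : x ∈ colors (n + 1) (2 * (n + 1) * s))
    (hg : ∀ i, (n + 1) * x i + 2 * (n + 1) * s ≤ (n + 1) * (2 * (n + 1) * s)) {Q : ℕ}
    (hQ : 0 < Q) (h : ∀ e, cnt (n + 1) x e * Q ≤ PI (n + 1) x) :
    ‖gg n s x‖ ≤ C1 n s * (Q : ℝ)⁻¹ := by
  have hr : 0 < 2 * (n + 1) * s := by positivity
  have hr' : (0 : ℝ) < ((2 * (n + 1) * s : ℕ) : ℝ) := by exact_mod_cast hr
  have hxm := (mem_colors.1 hx).2.1
  have hQ' : (0 : ℝ) < Q := by exact_mod_cast hQ
  have hPI : (0 : ℝ) < PI (n + 1) x := by exact_mod_cast PI_pos hxm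
  have h1 : ∀ e, (cnt (n + 1) x e : ℝ) ≤ PI (n + 1) x * (Q : ℝ)⁻¹ := by
    intro e
    rw [le_mul_inv_iff₀ hQ']
    exact_mod_cast h e
  have h2 := norm_YY_le hs hxm (by positivity) h1
  have h3 := norm_D_vac_ge (Nat.succ_pos n) hr hxm hg
  have h4 := norm_D_vac_pos hx hr
  rw [gg, norm_div, Complex.norm_real, Real.norm_of_nonneg (norm_nonneg _), div_le_iff₀ h4]
  refine h2.trans ?_
  have h5 : (4 / (((n + 1 : ℕ) : ℝ) * ((2 * (n + 1) * s : ℕ) : ℝ))) =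
      (((n + 1 : ℕ) : ℝ) * ((2 * (n + 1) * s : ℕ) : ℝ) / 4)⁻¹ := by rw [inv_div]
  rw [h5, inv_pow] at h3
  set t : ℝ := (((n + 1 : ℕ) : ℝ) * ((2 * (n + 1) * s : ℕ) : ℝ) / 4) with ht
  have ht0 : 0 < t := by rw [ht]; positivity
  have h6 : (PI (n + 1) x : ℝ) ≤ t ^ PP n * ‖D (n + 1) (2 * (n + 1) * s) (vac (n + 1)) x‖ := by
    have : (t ^ PP n)⁻¹ * (PI (n + 1) x : ℝ) ≤
      ‖D (n + 1) (2 * (n + 1) * s) (vac (n + 1)) x‖ := h3
    rwa [inv_mul_le_iff₀ (by positivity)] at this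
  rw [C1, ← ht]
  calc ((2 * (n + 1) : ℕ) : ℝ) ^ (n + 1) * (PI (n + 1) x * (Q : ℝ)⁻¹)
      ≤ ((2 * (n + 1) : ℕ) : ℝ) ^ (n + 1) *
        ((t ^ PP n * ‖D (n + 1) (2 * (n + 1) * s) (vac (n + 1)) x‖) * (Q : ℝ)⁻¹) := by gcongr
    _ = _ := by ring

/-- the bound by the product of the gaps -/
theorem norm_gg_le_G {n s : ℕ} (hn : 1 ≤ n) (hs : 0 < s) {x : Fin (n + 1) → ℕ}
    (hx : x ∈ colors (n + 1) (2 * (n + 1) * s)) :
    ‖gg n s x‖ ≤ C1 n s *
      ∑ m ∈ range (n + 2), (G n (rotm n (2 * (n + 1) * s) m x) : ℝ)⁻¹ := by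
  obtain ⟨m, hm, hg⟩ := exists_good hx
  have hw := rotm_mem (m := m) hx
  have hws := (mem_colors.1 hw).2.1
  rw [← gg_rotm hs hx m]
  refine (norm_gg_le hs hw hg (G_pos hws) (fun e => cnt_mul_G_le hn hws e)).trans ?_
  refine mul_le_mul_of_nonneg_left ?_ (C1_nonneg n s)
  exact Finset.single_le_sum
    (f := fun m => (G n (rotm n (2 * (n + 1) * s) m x) : ℝ)⁻¹) (fun _ _ => by positivity) hm

theorem exists_big_gap : ∀ (n : ℕ) (x : Fin (n + 2) → ℕ), StrictMono x →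
    ∃ κ : Fin (n + 1), x (Fin.last (n + 1)) ≤ x 0 + (n + 1) * (x κ.succ - x κ.castSucc) := by
  intro n x hx
  by_contra hcon
  push Not at hcon
  have h1 := sum_telescope x hx
  have h2 : ∑ i : Fin (n + 1), (n + 1) * (x i.succ - x i.castSucc) <
      ∑ _i : Fin (n + 1), (x (Fin.last (n + 1)) - x 0) :=
    Finset.sum_lt_sum_of_nonempty ⟨0, Finset.mem_univ _⟩ fun i _ => by
      have := hcon i
      omega
  rw [← Finset.mul_sum, Finset.sum_const, Finset.card_univ, Fintype.card_fin, smul_eq_mul] at h2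
  have h3 := Nat.lt_of_mul_lt_mul_left h2
  omega

/-- the bound if no rotation is near the corner -/
theorem norm_gg_le_of_far {n s : ℕ} (hn : 1 ≤ n) (hs : 0 < s) {x : Fin (n + 1) → ℕ}
    (hx : x ∈ colors (n + 1) (2 * (n + 1) * s))
    (hfar : ∀ m, ∃ i, s ≤ rotm n (2 * (n + 1) * s) m x i) :
    ‖gg n s x‖ ≤ C1 n s * ((n : ℝ) / s) ^ n := by
  obtain ⟨m, hm, hg⟩ := exists_good hx
  obtain ⟨i, hi⟩ := hfar m
  have hw := rotm_mem (m := m) hx
  obtain ⟨hw1, hws, hw0⟩ := mem_colors.1 hw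
  rw [← gg_rotm hs hx m]
  obtain ⟨k, rfl⟩ : ∃ k, n = k + 1 := ⟨n - 1, by omega⟩
  set w := rotm (k + 1) (2 * (k + 1 + 1) * s) m x with hwdef
  obtain ⟨κ, hκ⟩ := exists_big_gap k w hws
  rw [hw0, zero_add] at hκ
  have hle : s ≤ w (Fin.last (k + 1)) := hi.trans (hws.monotone (Fin.le_last i))
  have hgap : 0 < w κ.succ - w κ.castSucc := by
    have := hws (Fin.castSucc_lt_succ (i := κ))
    omega
  refine (norm_gg_le hs hw hg (pow_pos hgap _) (fun e => cnt_mul_gap_pow_le hws e κ)).trans ?_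
  refine mul_le_mul_of_nonneg_left ?_ (C1_nonneg _ s)
  have hs' : (0 : ℝ) < s := by exact_mod_cast hs
  have hgap' : (0 : ℝ) < ((w κ.succ - w κ.castSucc : ℕ) : ℝ) := by exact_mod_cast hgap
  have h1 : (s : ℝ) ≤ ((k + 1 : ℕ) : ℝ) * ((w κ.succ - w κ.castSucc : ℕ) : ℝ) := by
    exact_mod_cast hle.trans hκ
  have h2 : ((w κ.succ - w κ.castSucc : ℕ) : ℝ)⁻¹ ≤ ((k + 1 : ℕ) : ℝ) / s := by
    rw [inv_le_comm₀ hgap' (by positivity), inv_div, div_le_iff₀ (by positivity)]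
    linarith
  calc ((((w κ.succ - w κ.castSucc) ^ (k + 1) : ℕ) : ℝ))⁻¹ =
      (((w κ.succ - w κ.castSucc : ℕ) : ℝ)⁻¹) ^ (k + 1) := by
        rw [Nat.cast_pow, inv_pow]
    _ ≤ _ := pow_le_pow_left₀ (by positivity) h2 _

end Pool.Agent.Helper24.RTG
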