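import Mathlib
import Pool.Agent.Helper24.RTG.Cnt

/-!
# Lower bound for the zero weight multiplicity of equally spaced highest weights
-/

open Finset

namespace Pool.Agent.Helper24.RTG

/-- the number of free parameters -/
def ex (k : ℕ) : ℕ := ∑ i ∈ range k, (i - 1)

theorem ex_succ_succ (k : ℕ) : ex (k + 2) = ex (k + 1) + k := by
  rw [ex, Finset.sum_range_succ, ex, Nat.add_sub_cancel]

theorem ex_add (n : ℕ) : ex (n + 1) + n = ∑ i ∈ range (n + 1), i := by
  induction n with
  | zero => simp [ex]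
  | succ n ih =>
    rw [Finset.sum_range_succ, ← ih, ex_succ_succ]

/-- a row which is close to the equally spaced one -/
def Near (k h B D : ℕ) (ξ : Fin k → ℕ) : Prop :=
  ∃ p : Fin k → ℤ, (∀ i, |p i| ≤ D) ∧ ∑ i, p i = 0 ∧
    ∀ i, (ξ i : ℤ) = h + (i : ℕ) + B * (2 * (i : ℕ) - ((k : ℤ) - 1)) + p i

theorem sum_base (k : ℕ) (h B : ℤ) :
    ∑ i : Fin k, (h + (i : ℕ) + B * (2 * (i : ℕ) - ((k : ℤ) - 1))) =
      k * h + ∑ i : Fin k, ((i : ℕ) : ℤ) := by
  have h1 : ∑ i : Fin k, ((i : ℕ) : ℤ) * 2 = k * ((k : ℤ) - 1) := by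
    rw [← Finset.sum_mul, Fin.sum_univ_eq_sum_range (fun i => (i : ℤ)) k]
    rcases Nat.eq_zero_or_pos k with h0 | h0
    · subst h0; simp
    · have h2 := Finset.sum_range_id_mul_two k
      have h3 : (((∑ i ∈ range k, i) * 2 : ℕ) : ℤ) = ((k * (k - 1) : ℕ) : ℤ) := by rw [h2]
      push_cast [Nat.cast_sub h0] at h3
      exact h3
  have h2 : ∀ i : Fin k, (h + (i : ℕ) + B * (2 * (i : ℕ) - ((k : ℤ) - 1))) =
      h + (i : ℕ) + (B * (((i : ℕ) : ℤ) * 2) - B * ((k : ℤ) - 1)) := by
    intro i; ring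
  rw [Finset.sum_congr rfl fun i _ => h2 i, Finset.sum_add_distrib, Finset.sum_add_distrib,
    Finset.sum_sub_distrib, ← Finset.mul_sum, h1]
  simp only [Finset.sum_const, Finset.card_univ, Fintype.card_fin, nsmul_eq_mul]
  ring

theorem sum_near {k h B D : ℕ} {ξ : Fin k → ℕ} (hξ : Near k h B D ξ) :
    ∑ i, (ξ i : ℤ) = k * h + ∑ i : Fin k, ((i : ℕ) : ℤ) := by
  obtain ⟨p, _, h2, h3⟩ := hξ
  rw [Finset.sum_congr rfl fun i _ => h3 i, Finset.sum_add_distrib, h2, add_zero, sum_base]

/-- the perturbation with given free parameters -/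
def pt {k : ℕ} (t : Fin k → ℕ) : Fin (k + 1) → ℤ :=
  Fin.cons (-∑ i, (t i : ℤ)) (fun i => (t i : ℤ))

theorem pt_sum {k : ℕ} (t : Fin k → ℕ) : ∑ i, pt t i = 0 := by
  rw [Fin.sum_univ_succ]
  simp [pt]

theorem pt_bound {k M D : ℕ} {t : Fin k → ℕ} (ht : ∀ i, t i < M) (hD : (k + 1) * M ≤ D)
    (i : Fin (k + 1)) : |pt t i| ≤ D := by
  have h1 : ∑ i, (t i : ℤ) ≤ k * M := by
    calc ∑ i, (t i : ℤ) ≤ ∑ _i : Fin k, (M : ℤ) :=
          Finset.sum_le_sum fun i _ => by exact_mod_cast (ht i).le
      _ = k * M := by simp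
  have h0 : 0 ≤ ∑ i, (t i : ℤ) := Finset.sum_nonneg fun i _ => by positivity
  have hD' : ((k : ℤ) + 1) * M ≤ D := by exact_mod_cast hD
  have hM : (0 : ℤ) ≤ M := by positivity
  have hkM : (0 : ℤ) ≤ k * M := by positivity
  refine Fin.cases ?_ (fun i => ?_) i
  · rw [pt, Fin.cons_zero, abs_neg, abs_of_nonneg h0]
    linarith
  · rw [pt, Fin.cons_succ, abs_of_nonneg (by positivity)]
    have h2 : (t i : ℤ) ≤ M := by exact_mod_cast (ht i).le
    linarith

/-- the perturbed row as an integer vector -/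
def zt {k : ℕ} (h B : ℕ) (t : Fin k → ℕ) : Fin (k + 1) → ℤ :=
  fun i => h + (i : ℕ) + B * (2 * (i : ℕ) - (((k + 1 : ℕ) : ℤ) - 1)) + pt t i

theorem zt_between {k h B D M : ℕ} {u : Fin (k + 2) → ℕ} (hu : Near (k + 2) h B D u)
    (hB : 2 * D ≤ B) (hD : (k + 1) * M ≤ D) {t : Fin k → ℕ} (ht : ∀ i, t i < M)
    (i : Fin (k + 1)) : (u i.castSucc : ℤ) ≤ zt h B t i ∧ zt h B t i < u i.succ := by
  obtain ⟨p, h1, _, h3⟩ := hu
  have e1 := h3 i.castSucc
  have e2 := h3 i.succ
  have b1 := abs_le.1 (h1 i.castSucc)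
  have b2 := abs_le.1 (h1 i.succ)
  have b3 := abs_le.1 (pt_bound ht hD i)
  have hB' : 2 * (D : ℤ) ≤ B := by exact_mod_cast hB
  simp only [Fin.val_castSucc, Fin.val_succ] at e1 e2
  push_cast at e1 e2
  have e3 : zt h B t i = h + (i : ℕ) + B * (2 * (i : ℕ) - (k : ℤ)) + pt t i := by
    rw [zt]; push_cast; ring
  rw [e1, e2, e3]
  constructor
  · have : (h : ℤ) + (i : ℕ) + B * (2 * (i : ℕ) - (k : ℤ)) + pt t i -
      (h + (i : ℕ) + B * (2 * (i : ℕ) - ((k : ℤ) + 2 - 1)) + p i.castSucc) =
      B + pt t i - p i.castSucc := by ring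
    linarith
  · have : (h : ℤ) + ((i : ℕ) + 1) + B * (2 * ((i : ℕ) + 1) - ((k : ℤ) + 2 - 1)) + p i.succ -
      (h + (i : ℕ) + B * (2 * (i : ℕ) - (k : ℤ)) + pt t i) =
      1 + B + p i.succ - pt t i := by ring
    linarith

/-- lower bound for the multiplicity of the zero weight -/
theorem cnt_lower {h B D M n : ℕ} (hB : 2 * D ≤ B) (hD : n * M ≤ D) :
    ∀ (k : ℕ), k ≤ n → ∀ (u : Fin k → ℕ), Near k h B D u →
      M ^ ex k ≤ cnt k u (fun _ => h) := by
  intro k
  induction k with
  | zero => intro _ u _; simp [ex, cnt]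
  | succ k ih =>
    intro hk u hu
    rcases Nat.eq_zero_or_pos k with h0 | h0
    · subst h0
      have h1 : ex (0 + 1) = 0 := by simp [ex]
      have h2 : u 0 = h := by
        obtain ⟨p, _, h2, h3⟩ := hu
        have e1 := h3 0
        have e2 : p 0 = 0 := by simpa using h2
        rw [e2] at e1
        simp at e1
        exact e1
      rw [h1, pow_zero, cnt_succ, rows]
      simp only [Fintype.piFinset_of_isEmpty, Finset.univ_unique, Finset.sum_singleton]
      simp [h2, cnt]
    · obtain ⟨k, rfl⟩ : ∃ k', k = k' + 1 := ⟨k - 1, by omega⟩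
      have hDk : (k + 1) * M ≤ D := (Nat.mul_le_mul_right _ (by omega)).trans hD
      rw [cnt_succ, ex_succ_succ]
      set S : Finset (Fin k → ℕ) := Fintype.piFinset (fun _ : Fin k => range M) with hS
      have hSm : ∀ t ∈ S, ∀ i, t i < M := fun t ht i => by
        have := Fintype.mem_piFinset.1 ht i
        exact Finset.mem_range.1 this
      set row : (Fin k → ℕ) → Fin (k + 1) → ℕ := fun t i => (zt h B t i).toNat with hrow
      have hcast : ∀ t ∈ S, ∀ i, ((row t i : ℕ) : ℤ) = zt h B t i := by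
        intro t ht i
        have h1 := (zt_between hu hB hDk (hSm t ht) i).1
        rw [hrow]
        simp only
        rw [Int.toNat_of_nonneg]
        exact le_trans (by positivity) h1
      have hinj : Set.InjOn row (S : Set (Fin k → ℕ)) := by
        intro t ht t' ht' hh
        funext i
        have e1 := hcast t ht i.succ
        have e2 := hcast t' ht' i.succ
        rw [hh, e2] at e1
        simp only [zt, pt, Fin.cons_succ] at e1
        have : (t' i : ℤ) = t i := by linarith
        exact_mod_cast this.symm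
      have hnear : ∀ t ∈ S, Near (k + 1) h B D (row t) := fun t ht =>
        ⟨pt t, pt_bound (hSm t ht) hDk, pt_sum t, fun i => hcast t ht i⟩
      have hmem : ∀ t ∈ S, row t ∈ rows u := by
        intro t ht
        rw [mem_rows]
        intro i
        have h1 := zt_between hu hB hDk (hSm t ht) i
        rw [← hcast t ht i] at h1
        exact ⟨by exact_mod_cast h1.1, by exact_mod_cast h1.2⟩
      have hcond : ∀ t ∈ S, h = u 0 + ∑ i : Fin (k + 1), (u i.succ - 1 - row t i) := by
        intro t ht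
        have h1 := sum_near hu
        have h2 := sum_near (hnear t ht)
        have hm := mem_rows.1 (hmem t ht)
        have h3 : ((∑ i : Fin (k + 1), (u i.succ - 1 - row t i) : ℕ) : ℤ) =
            ∑ i : Fin (k + 1), (u i.succ : ℤ) - (k + 1) - ∑ i, (row t i : ℤ) := by
          push_cast
          have h4 : ∀ i : Fin (k + 1), ((u i.succ - 1 - row t i : ℕ) : ℤ) =
              (u i.succ : ℤ) - 1 - row t i := by
            intro i
            have := (hm i).2
            omega
          rw [Finset.sum_congr rfl fun i _ => h4 i, Finset.sum_sub_distrib,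
            Finset.sum_sub_distrib]
          simp
        rw [Fin.sum_univ_succ (f := fun i => (u i : ℤ)),
          Fin.sum_univ_castSucc (f := fun i : Fin (k + 1 + 1) => ((i : ℕ) : ℤ))] at h1
        simp only [Fin.val_castSucc, Fin.val_last] at h1
        push_cast at h1 h2
        have h5 : (h : ℤ) = u 0 + ((∑ i : Fin (k + 1), (u i.succ - 1 - row t i) : ℕ) : ℤ) := by
          rw [h3, h2]
          linarith
        exact_mod_cast h5
      calc M ^ (ex (k + 1) + k) = ∑ _t ∈ S, M ^ ex (k + 1) := by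
            rw [Finset.sum_const, hS, Fintype.card_piFinset]
            simp only [Finset.card_range, Finset.prod_const, Finset.card_univ, Fintype.card_fin,
              smul_eq_mul]
            rw [pow_add, mul_comm]
        _ ≤ ∑ t ∈ S, (if h = u 0 + ∑ i : Fin (k + 1), (u i.succ - 1 - row t i) then
              cnt (k + 1) (row t) (fun _ => h) else 0) := by
            refine Finset.sum_le_sum fun t ht => ?_
            rw [if_pos (hcond t ht)]
            exact ih (by omega) (row t) (hnear t ht)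
        _ = ∑ ξ ∈ S.image row, (if h = u 0 + ∑ i : Fin (k + 1), (u i.succ - 1 - ξ i) then
              cnt (k + 1) ξ (fun _ => h) else 0) := by
            rw [Finset.sum_image hinj]
        _ ≤ _ := by
            refine Finset.sum_le_sum_of_subset ?_
            intro ξ hξ
            obtain ⟨t, ht, rfl⟩ := Finset.mem_image.1 hξ
            exact hmem t ht

end Pool.Agent.Helper24.RTG
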