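import Mathlib
import Pool.Agent.Helper24.RTG.Bound
import Pool.Agent.Helper24.RTG.CntLower

/-!
# Many colours with a big zero weight multiplicity
-/

open Finset
open scoped Real

namespace Pool.Agent.Helper24.RTG

open Pool.Agent.Helper15.AllN Pool.Agent.Helper15.RT Pool.Agent.Helper21.AEC

/-- spacing -/
def Bj (n j : ℕ) : ℕ := 4 * (n + 1) ^ 2 * 4 ^ j

/-- the colour with given parameters -/
def fx (n j : ℕ) (t : Fin n → ℕ) : Fin (n + 1) → ℕ :=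
  Fin.cons 0 (fun i => ((i : ℕ) + 1) * (1 + 2 * Bj n j) + 2 * (n + 1) * (t i + ∑ l, t l))

theorem fx_zero (n j : ℕ) (t : Fin n → ℕ) : fx n j t 0 = 0 := rfl

theorem fx_succ (n j : ℕ) (t : Fin n → ℕ) (i : Fin n) : fx n j t i.succ =
    ((i : ℕ) + 1) * (1 + 2 * Bj n j) + 2 * (n + 1) * (t i + ∑ l, t l) := rfl

theorem fx_near {n j : ℕ} {t : Fin n → ℕ} (ht : ∀ i, t i < 4 ^ j) :
    Near (n + 1) (n * Bj n j + 2 * (n + 1) * ∑ l, t l) (Bj n j) (2 * (n + 1) ^ 2 * 4 ^ j)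
      (fx n j t) := by
  refine ⟨pt (fun i => 2 * (n + 1) * t i), ?_, pt_sum _, ?_⟩
  · refine pt_bound (M := 2 * (n + 1) * 4 ^ j) (fun i => ?_) (le_of_eq (by ring))
    exact Nat.mul_lt_mul_of_pos_left (ht i) (by positivity)
  · intro i
    refine Fin.cases ?_ (fun i => ?_) i
    · rw [fx_zero, pt, Fin.cons_zero]
      push_cast
      rw [← Finset.mul_sum]
      simp only [Fin.val_zero]
      push_cast
      ring
    · rw [fx_succ, pt, Fin.cons_succ]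
      simp only [Fin.val_succ]
      push_cast
      ring

theorem near_strictMono {n h B D : ℕ} {u : Fin (n + 1) → ℕ} (hu : Near (n + 1) h B D u)
    (hB : 2 * D ≤ B) : StrictMono u := by
  obtain ⟨p, h1, _, h3⟩ := hu
  rw [Fin.strictMono_iff_lt_succ]
  intro i
  have e1 := h3 i.castSucc
  have e2 := h3 i.succ
  have b1 := abs_le.1 (h1 i.castSucc)
  have b2 := abs_le.1 (h1 i.succ)
  have hB' : 2 * (D : ℤ) ≤ B := by exact_mod_cast hB
  simp only [Fin.val_castSucc, Fin.val_succ] at e1 e2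
  push_cast at e1 e2
  have h4 : (u i.succ : ℤ) - u i.castSucc = 1 + 2 * B + p i.succ - p i.castSucc := by
    rw [e1, e2]
    ring
  have h5 : (0 : ℤ) ≤ B := by positivity
  have : (u i.castSucc : ℤ) < u i.succ := by linarith
  exact_mod_cast this

theorem fx_strictMono {n j : ℕ} {t : Fin n → ℕ} (ht : ∀ i, t i < 4 ^ j) :
    StrictMono (fx n j t) :=
  near_strictMono (fx_near ht) (le_of_eq (by rw [Bj]; ring))

theorem sum_t_le {n j : ℕ} {t : Fin n → ℕ} (ht : ∀ i, t i < 4 ^ j) : ∑ l, t l ≤ n * 4 ^ j := by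
  calc ∑ l, t l ≤ ∑ _l : Fin n, 4 ^ j := Finset.sum_le_sum fun l _ => (ht l).le
    _ = n * 4 ^ j := by simp

theorem fx_le {n j : ℕ} {t : Fin n → ℕ} (ht : ∀ i, t i < 4 ^ j) (i : Fin (n + 1)) :
    fx n j t i ≤ 11 * (n + 1) ^ 3 * 4 ^ j := by
  refine Fin.cases ?_ (fun i => ?_) i
  · rw [fx_zero]; exact Nat.zero_le _
  · rw [fx_succ]
    have h1 := sum_t_le ht
    have h2 := (ht i).le
    have h3 : (i : ℕ) + 1 ≤ n + 1 := by have := i.isLt; omega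
    have h4 : 1 ≤ 4 ^ j := Nat.one_le_pow _ _ (by norm_num)
    have h5 : ((i : ℕ) + 1) * (1 + 2 * Bj n j) ≤ (n + 1) * (4 ^ j + 2 * Bj n j) := by
      gcongr
    have h6 : 2 * (n + 1) * (t i + ∑ l, t l) ≤ 2 * (n + 1) * (4 ^ j + n * 4 ^ j) := by
      gcongr
    have h7 : (n + 1) ^ 1 * 4 ^ j ≤ (n + 1) ^ 3 * 4 ^ j :=
      Nat.mul_le_mul_right _ (Nat.pow_le_pow_right (Nat.succ_pos n) (by norm_num))
    have h8 : (n + 1) ^ 2 * 4 ^ j ≤ (n + 1) ^ 3 * 4 ^ j :=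
      Nat.mul_le_mul_right _ (Nat.pow_le_pow_right (Nat.succ_pos n) (by norm_num))
    have h9 : (n + 1) * (4 ^ j + 2 * Bj n j) = (n + 1) ^ 1 * 4 ^ j + 8 * ((n + 1) ^ 3 * 4 ^ j) := by
      rw [Bj]
      ring
    have h10 : 2 * (n + 1) * (4 ^ j + n * 4 ^ j) = 2 * ((n + 1) ^ 2 * 4 ^ j) := by ring
    rw [h9] at h5
    rw [h10] at h6
    have h11 : 11 * (n + 1) ^ 3 * 4 ^ j = 11 * ((n + 1) ^ 3 * 4 ^ j) := by ring
    rw [h11]
    omega

theorem fx_mem {n j s : ℕ} {t : Fin n → ℕ} (ht : ∀ i, t i < 4 ^ j)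
    (hs : 11 * (n + 1) ^ 3 * 4 ^ j < s) : fx n j t ∈ colors (n + 1) (2 * (n + 1) * s) := by
  rw [mem_colors]
  refine ⟨fun i => ?_, fx_strictMono ht, fx_zero n j t⟩
  have h1 := fx_le ht i
  have h2 : s ≤ 2 * (n + 1) * s := Nat.le_mul_of_pos_left _ (by omega)
  omega

theorem fx_mod (n j : ℕ) (t : Fin n → ℕ) (i : Fin (n + 1)) :
    ∃ w, fx n j t i = i + 2 * (n + 1) * w := by
  refine Fin.cases ?_ (fun i => ?_) i
  · exact ⟨0, by simp [fx_zero]⟩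
  · refine ⟨((i : ℕ) + 1) * (4 * (n + 1) * 4 ^ j) + (t i + ∑ l, t l), ?_⟩
    rw [fx_succ, Bj, Fin.val_succ]
    ring

theorem fx_mem_supp {n j s : ℕ} {t : Fin n → ℕ} (ht : ∀ i, t i < 4 ^ j)
    (hs : 11 * (n + 1) ^ 3 * 4 ^ j < s) : fx n j t ∈ supp (n + 1) (2 * (n + 1) * s) := by
  rw [mem_supp]
  refine ⟨fx_mem ht hs, ⟨n, by omega⟩, Fin.revPerm, fun i => ?_⟩
  obtain ⟨w, hw⟩ := fx_mod n j t (Fin.revPerm i)
  rw [hw]
  simp only [Fin.revPerm_apply, Fin.val_rev]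
  have h1 : n + 1 - ((i : ℕ) + 1) + 2 * (n + 1) * w + (i : ℕ) = n + 2 * (n + 1) * w := by
    have := i.isLt
    omega
  rw [h1, Nat.add_mul_mod_self_left, Nat.mod_eq_of_lt (by omega)]

theorem fx_injective (n j : ℕ) : Function.Injective (fx n j) := by
  intro t t' h
  have h1 : ∀ i : Fin n, t i + ∑ l, t l = t' i + ∑ l, t' l := by
    intro i
    have h2 := congrFun h i.succ
    rw [fx_succ, fx_succ] at h2
    have h3 : 2 * (n + 1) * (t i + ∑ l, t l) = 2 * (n + 1) * (t' i + ∑ l, t' l) :=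
      Nat.add_left_cancel h2
    exact Nat.eq_of_mul_eq_mul_left (by omega) h3
  have h2 : ∑ i : Fin n, (t i + ∑ l, t l) = ∑ i : Fin n, (t' i + ∑ l, t' l) :=
    Finset.sum_congr rfl fun i _ => h1 i
  rw [Finset.sum_add_distrib, Finset.sum_add_distrib, Finset.sum_const, Finset.sum_const,
    Finset.card_univ, Fintype.card_fin, smul_eq_mul, smul_eq_mul] at h2
  have h3 : ∑ l, t l = ∑ l, t' l := by
    have h4 : (n + 1) * ∑ l, t l = (n + 1) * ∑ l, t' l := by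
      calc (n + 1) * ∑ l, t l = ∑ l, t l + n * ∑ l, t l := by ring
        _ = ∑ l, t' l + n * ∑ l, t' l := h2
        _ = _ := by ring
    exact Nat.eq_of_mul_eq_mul_left (Nat.succ_pos n) h4
  funext i
  have := h1 i
  omega

/-- the colours at scale `j` -/
def fam (n j : ℕ) : Finset (Fin (n + 1) → ℕ) :=
  (Fintype.piFinset (fun _ : Fin n => range (4 ^ j))).image (fx n j)

theorem card_fam (n j : ℕ) : #(fam n j) = (4 ^ j) ^ n := by
  rw [fam, Finset.card_image_of_injective _ (fx_injective n j), Fintype.card_piFinset]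
  simp

theorem mem_fam {n j : ℕ} {x : Fin (n + 1) → ℕ} (hx : x ∈ fam n j) :
    ∃ t : Fin n → ℕ, (∀ i, t i < 4 ^ j) ∧ x = fx n j t := by
  rw [fam, Finset.mem_image] at hx
  obtain ⟨t, ht, rfl⟩ := hx
  exact ⟨t, fun i => Finset.mem_range.1 (Fintype.mem_piFinset.1 ht i), rfl⟩

theorem fam_gap {n j : ℕ} (hn : 1 ≤ n) {x : Fin (n + 1) → ℕ} (hx : x ∈ fam n j) :
    2 * Bj n j < x (Fin.succ ⟨0, hn⟩) ∧ x (Fin.succ ⟨0, hn⟩) ≤ 3 * Bj n j := by
  obtain ⟨t, ht, rfl⟩ := mem_fam hx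
  rw [fx_succ]
  have h1 := sum_t_le ht
  have h2 := ht ⟨0, hn⟩
  have h4 : 1 ≤ 4 ^ j := Nat.one_le_pow _ _ (by norm_num)
  have h3 : 2 * (n + 1) * (t ⟨0, hn⟩ + ∑ l, t l) ≤ 2 * (n + 1) ^ 2 * 4 ^ j := by
    calc 2 * (n + 1) * (t ⟨0, hn⟩ + ∑ l, t l) ≤ 2 * (n + 1) * (4 ^ j + n * 4 ^ j) := by
          gcongr
      _ = _ := by ring
  have h5 : 2 * (2 * (n + 1) ^ 2 * 4 ^ j) = Bj n j := by rw [Bj]; ring
  have h6 : 1 ≤ 2 * (n + 1) ^ 2 * 4 ^ j := Nat.mul_pos (by positivity) h4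
  constructor
  · simp only [zero_add, one_mul]
    omega
  · simp only [zero_add, one_mul]
    omega

theorem fam_disjoint {n i j : ℕ} (hn : 1 ≤ n) (hij : i < j) : Disjoint (fam n i) (fam n j) := by
  rw [Finset.disjoint_left]
  intro x hi hj
  have h1 := (fam_gap hn hi).2
  have h2 := (fam_gap hn hj).1
  have h3 : 4 * Bj n i ≤ Bj n j := by
    rw [Bj, Bj]
    calc 4 * (4 * (n + 1) ^ 2 * 4 ^ i) = 4 * (n + 1) ^ 2 * 4 ^ (i + 1) := by ring
      _ ≤ 4 * (n + 1) ^ 2 * 4 ^ j :=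
        Nat.mul_le_mul_left _ (Nat.pow_le_pow_right (by norm_num) hij)
  omega

/-! ### the size of the summands -/

theorem corner_gg {n s : ℕ} {x : Fin (n + 1) → ℕ} (hx : StrictMono x) (hxs : ∀ i, x i < s) :
    ∃ M : ℕ, gg n s x = ((M / ‖D (n + 1) (2 * (n + 1) * s) (vac (n + 1)) x‖ : ℝ) : ℂ) ∧
      ∀ h : ℕ, cnt (n + 1) x (fun _ => h) ≤ M := by
  obtain ⟨M, h1, h2⟩ := corner_YY hx hxs
  refine ⟨M, ?_, h2⟩
  rw [gg, h1]
  push_cast
  rfl

theorem norm_D_vac_le' {n r : ℕ} (hr : 0 < r) {x : Fin (n + 1) → ℕ} (hx : StrictMono x)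
    (hxr : ∀ i, x i < r) :
    ‖D (n + 1) r (vac (n + 1)) x‖ ≤ (2 * π / r) ^ PP n * (PI (n + 1) x : ℝ) := by
  rw [norm_D_vac, PP, ← prod_pairs_const, PI]
  push_cast
  rw [← Finset.prod_mul_distrib]
  have hr' : (0 : ℝ) < r := by exact_mod_cast hr
  have hpi := Real.pi_pos
  refine Finset.prod_le_prod (fun i _ => Finset.prod_nonneg fun _ _ => norm_nonneg _) fun i _ => ?_
  rw [← Finset.prod_mul_distrib]
  refine Finset.prod_le_prod (fun _ _ => norm_nonneg _) fun j hj => ?_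
  have hij : i < j := by simpa using hj
  have hle : x i ≤ x j := (hx hij).le
  have h2 := hxr j
  rw [norm_om_sub hle (by omega) hr, Nat.cast_sub hle]
  have h3 : (0 : ℝ) ≤ (x j : ℝ) - x i := by
    have : (x i : ℝ) ≤ x j := by exact_mod_cast hle
    linarith
  have h5 : Real.sin (π * ((x j : ℝ) - x i) / r) ≤ π * ((x j : ℝ) - x i) / r :=
    Real.sin_le (by positivity)
  calc 2 * Real.sin (π * ((x j : ℝ) - x i) / r)
      ≤ 2 * (π * ((x j : ℝ) - x i) / r) := by linarith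
    _ = 2 * π / r * ((x j : ℝ) - x i) := by ring

theorem PI_le_pow {n M : ℕ} {x : Fin (n + 1) → ℕ} (hx : ∀ i, x i ≤ M) :
    PI (n + 1) x ≤ M ^ PP n := by
  rw [PI, PP, ← Finset.prod_pow_eq_pow_sum]
  refine Finset.prod_le_prod' fun i _ => ?_
  rw [← Finset.prod_const]
  refine Finset.prod_le_prod' fun j _ => ?_
  have := hx j
  omega

theorem PP_eq (n : ℕ) : PP n = ex (n + 1) + n := by
  have h1 := two_PP n
  have h2 := ex_add n
  have h3 := Finset.sum_range_id_mul_two (n + 1)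
  rw [Nat.add_sub_cancel] at h3
  omega

theorem fam_gg {n j s : ℕ} (hs : 11 * (n + 1) ^ 3 * 4 ^ j < s) {x : Fin (n + 1) → ℕ}
    (hx : x ∈ fam n j) :
    ((4 : ℝ) ^ j) ^ ex (n + 1) / ((2 * π / ((2 * (n + 1) * s : ℕ) : ℝ)) ^ PP n *
      (((11 * (n + 1) ^ 3 : ℕ) : ℝ) * 4 ^ j) ^ PP n) ≤ (gg n s x).re := by
  obtain ⟨t, ht, rfl⟩ := mem_fam hx
  have hs0 : 0 < s := lt_of_le_of_lt (Nat.zero_le _) hs
  have hr : 0 < 2 * (n + 1) * s := by positivity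
  have hr' : (0 : ℝ) < ((2 * (n + 1) * s : ℕ) : ℝ) := by exact_mod_cast hr
  have hm := fx_strictMono ht
  have hmem := fx_mem ht hs
  obtain ⟨M, h1, h2⟩ := corner_gg hm (s := s) (fun i => lt_of_le_of_lt (fx_le ht i) hs)
  rw [h1, Complex.ofReal_re]
  have hD := norm_D_vac_pos hmem hr
  have h3 := norm_D_vac_le' hr hm (mem_colors.1 hmem).1
  have h4 : (PI (n + 1) (fx n j t) : ℝ) ≤ (((11 * (n + 1) ^ 3 : ℕ) : ℝ) * 4 ^ j) ^ PP n := by
    have := PI_le_pow (fx_le ht)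
    exact_mod_cast this
  have h5 : ((4 : ℝ) ^ j) ^ ex (n + 1) ≤ M := by
    have h6 := cnt_lower (h := n * Bj n j + 2 * (n + 1) * ∑ l, t l) (B := Bj n j)
      (D := 2 * (n + 1) ^ 2 * 4 ^ j) (M := 4 ^ j) (n := n + 1) (le_of_eq (by rw [Bj]; ring))
      (by
        calc (n + 1) * 4 ^ j = 1 * (n + 1) * 4 ^ j := by ring
          _ ≤ (2 * (n + 1)) * (n + 1) * 4 ^ j := by gcongr; omega
          _ = 2 * (n + 1) ^ 2 * 4 ^ j := by ring) (n + 1) le_rfl (fx n j t) (fx_near ht)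
    exact_mod_cast h6.trans (h2 _)
  have hpi := Real.pi_pos
  refine div_le_div₀ (by positivity) h5 hD ?_
  refine h3.trans ?_
  exact mul_le_mul_of_nonneg_left h4 (by positivity)

theorem fam_sum {n j s : ℕ} (hs : 11 * (n + 1) ^ 3 * 4 ^ j < s) :
    (((2 * (n + 1) * s : ℕ) : ℝ) / (2 * π * ((11 * (n + 1) ^ 3 : ℕ) : ℝ))) ^ PP n ≤
      ∑ x ∈ fam n j, (gg n s x).re := by
  have hs0 : 0 < s := lt_of_le_of_lt (Nat.zero_le _) hs
  have hr : 0 < 2 * (n + 1) * s := by positivity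
  have hr' : (0 : ℝ) < ((2 * (n + 1) * s : ℕ) : ℝ) := by exact_mod_cast hr
  refine le_trans (le_of_eq ?_) (Finset.sum_le_sum fun x hx => fam_gg hs hx)
  rw [Finset.sum_const, card_fam, nsmul_eq_mul]
  have h4 : (4 : ℝ) ^ j ≠ 0 := by positivity
  have hpi : π ≠ 0 := Real.pi_ne_zero
  have h11 : ((11 * (n + 1) ^ 3 : ℕ) : ℝ) ≠ 0 := by
    have : 0 < 11 * (n + 1) ^ 3 := by positivity
    exact_mod_cast this.ne'
  have e1 : (((4 ^ j) ^ n : ℕ) : ℝ) = ((4 : ℝ) ^ j) ^ n := by push_cast; rfl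
  have e2 : n + ex (n + 1) = PP n := by rw [PP_eq, add_comm]
  rw [e1, ← mul_pow, ← mul_div_assoc, ← pow_add, e2, ← div_pow]
  congr 1
  field_simp

end Pool.Agent.Helper24.RTG
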