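import Mathlib
import Pool.Agent.Helper24.RTG.Family

/-!
# The growth of the reduced state sum
-/

open Finset Filter
open scoped Real Topology

namespace Pool.Agent.Helper24.RTG

open Pool.Agent.Helper15.AllN Pool.Agent.Helper15.RT Pool.Agent.Helper21.AEC

/-- the value of `‖eN‖ ^ 2` on the support -/
noncomputable def kk (n s : ℕ) : ℝ := (2 * ((n + 1 : ℕ) : ℝ)) ^ n /
  (((n + 1 : ℕ) : ℝ) * ((2 * (n + 1) * s : ℕ) : ℝ) ^ n)

theorem norm_eN_sq' {n s : ℕ} (hn : 1 ≤ n) (hs : 0 < s) {x : Fin (n + 1) → ℕ}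
    (hx : x ∈ colors (n + 1) (2 * (n + 1) * s)) : ‖eN (n + 1) (2 * (n + 1) * s) x‖ ^ 2 =
      if x ∈ supp (n + 1) (2 * (n + 1) * s) then kk n s else 0 := by
  have := norm_eN_sq (N := n + 1) (r := 2 * (n + 1) * s) (by omega) (by positivity)
    (dvd_mul_right _ _) hx
  rw [this, kk, Nat.add_sub_cancel]

theorem supp_subset (N r : ℕ) : supp N r ⊆ colors N r := Finset.filter_subset _ _

theorem Zred_eq {n s : ℕ} (hn : 1 ≤ n) (hs : 0 < s) : Zred (n + 1) (2 * (n + 1) * s) =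
    ((kk n s ^ 2 * cc n s : ℝ) : ℂ) * ∑ x ∈ supp (n + 1) (2 * (n + 1) * s), gg n s x := by
  have h1 : ∀ x ∈ supp (n + 1) (2 * (n + 1) * s), ∑ y ∈ colors (n + 1) (2 * (n + 1) * s),
      ((‖eN (n + 1) (2 * (n + 1) * s) x‖ ^ 2 / S0 (n + 1) (2 * (n + 1) * s) x *
        (‖eN (n + 1) (2 * (n + 1) * s) y‖ ^ 2 / S0 (n + 1) (2 * (n + 1) * s) y) : ℝ) : ℂ) *
        Smat (n + 1) (2 * (n + 1) * s) x y =
      ((kk n s ^ 2 : ℝ) : ℂ) * ((cc n s : ℂ) * gg n s x) := by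
    intro x hx
    have hxc := supp_subset _ _ hx
    rw [← sum_eq_gg hs hxc, Finset.mul_sum]
    symm
    refine (Finset.sum_congr rfl fun y hy => ?_).trans
      (Finset.sum_subset (supp_subset (n + 1) (2 * (n + 1) * s)) fun y hy hy' => ?_)
    · rw [norm_eN_sq' hn hs hxc, norm_eN_sq' hn hs (supp_subset _ _ hy), if_pos hx, if_pos hy]
      push_cast
      rw [div_eq_mul_inv, div_eq_mul_inv, div_eq_mul_inv, mul_inv]
      ring
    · rw [norm_eN_sq' hn hs hy, if_neg hy']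
      simp
  rw [Zred]
  symm
  rw [Finset.mul_sum]
  refine (Finset.sum_congr rfl fun x hx => ?_).trans
    (Finset.sum_subset (supp_subset (n + 1) (2 * (n + 1) * s)) fun x hx hx' => ?_)
  · rw [h1 x hx]
    push_cast
    ring
  · rw [norm_eN_sq' hn hs hx, if_neg hx']
    simp

theorem card_colors_le (n r : ℕ) : #(colors (n + 1) r) ≤ r ^ n := by
  have hcard : #(Fintype.piFinset (fun _ : Fin n => range r)) = r ^ n := by
    rw [Fintype.card_piFinset]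
    simp
  rw [← hcard]
  refine Finset.card_le_card_of_injOn (fun x i => x i.succ) ?_ ?_
  · intro x hx
    have := (mem_colors.1 hx).1
    refine Finset.mem_coe.2 (Fintype.mem_piFinset.2 fun i => ?_)
    exact Finset.mem_range.2 (this _)
  · intro x hx y hy h
    have h1 := (mem_colors.1 hx).2.2
    have h2 := (mem_colors.1 hy).2.2
    funext i
    refine Fin.cases ?_ (fun i => ?_) i
    · rw [h1, h2]
    · exact congrFun h i

/-! ### upper bound -/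

theorem sum_gg_le {n s : ℕ} (hn : 1 ≤ n) (hs : 0 < s) :
    ‖∑ x ∈ supp (n + 1) (2 * (n + 1) * s), gg n s x‖ ≤
      C1 n s * (((n : ℝ) + 2) * (1 + Real.log ((2 * (n + 1) * s : ℕ) : ℝ)) ^ n) := by
  set r := 2 * (n + 1) * s with hr
  refine (norm_sum_le _ _).trans ?_
  have h1 : ∑ x ∈ supp (n + 1) r, ‖gg n s x‖ ≤ ∑ x ∈ colors (n + 1) r, ‖gg n s x‖ :=
    Finset.sum_le_sum_of_subset_of_nonneg (supp_subset _ _) fun _ _ _ => norm_nonneg _
  refine h1.trans ((Finset.sum_le_sum fun x hx => norm_gg_le_G hn hs hx).trans ?_)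
  rw [← Finset.mul_sum]
  refine mul_le_mul_of_nonneg_left ?_ (C1_nonneg n s)
  rw [Finset.sum_comm]
  have h4 : ∀ m ∈ range (n + 2), ∑ x ∈ colors (n + 1) r, (G n (rotm n r m x) : ℝ)⁻¹ ≤
      (1 + Real.log r) ^ n := by
    intro m hm
    have hm' : m ≤ n + 1 := by
      rw [Finset.mem_range] at hm; omega
    rw [← Finset.sum_image (f := fun w => (G n w : ℝ)⁻¹) (rotm_injOn n r m hm')]
    refine (Finset.sum_le_sum_of_subset_of_nonneg ?_ fun g _ _ => by positivity).trans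
      ((sum_inv_G_le n r).trans ?_)
    · intro w hw
      rw [Finset.mem_image] at hw
      obtain ⟨x, hx, rfl⟩ := hw
      exact rotm_mem hx
    · exact pow_le_pow_left₀ (Finset.sum_nonneg fun _ _ => by positivity) (sum_inv_Icc_le r) n
  refine (Finset.sum_le_sum h4).trans ?_
  rw [Finset.sum_const, Finset.card_range, nsmul_eq_mul]
  push_cast
  exact le_refl _

/-! ### lower bound -/

theorem rotm_zero {n r : ℕ} {x : Fin (n + 1) → ℕ} (hx : x 0 = 0) : rotm n r 0 x = x := by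
  funext i
  simp only [rotm, zero_add]
  have e2 : ext n r x 0 = x 0 := ext_fin n r x 0
  rw [ext_fin, e2, hx, Nat.sub_zero]

theorem gg_re_nonneg {n s : ℕ} (hs : 0 < s) {x : Fin (n + 1) → ℕ}
    (hx : x ∈ colors (n + 1) (2 * (n + 1) * s)) {m : ℕ}
    (hm : ∀ i, rotm n (2 * (n + 1) * s) m x i < s) : 0 ≤ (gg n s x).re := by
  rw [← gg_rotm hs hx m]
  obtain ⟨M, h1, -⟩ := corner_gg (mem_colors.1 (rotm_mem (m := m) hx)).2.1 hm
  rw [h1, Complex.ofReal_re]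
  positivity

theorem sum_gg_ge {n s K : ℕ} (hn : 1 ≤ n) (hK : 11 * (n + 1) ^ 3 * 4 ^ K ≤ s) :
    (K : ℝ) * (((2 * (n + 1) * s : ℕ) : ℝ) / (2 * π * ((11 * (n + 1) ^ 3 : ℕ) : ℝ))) ^ PP n -
      ((2 * (n + 1) * s : ℕ) : ℝ) ^ n * (C1 n s * ((n : ℝ) / s) ^ n) ≤
      ‖∑ x ∈ supp (n + 1) (2 * (n + 1) * s), gg n s x‖ := by
  classical
  have h4K : 1 ≤ 4 ^ K := Nat.one_le_pow _ _ (by norm_num)
  have hs : 0 < s := by
    have : 0 < 11 * (n + 1) ^ 3 * 4 ^ K := by positivity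
    omega
  set r := 2 * (n + 1) * s with hr
  refine le_trans ?_ (Complex.re_le_norm _)
  rw [Complex.re_sum]
  set P : (Fin (n + 1) → ℕ) → Prop := fun x => ∃ m, ∀ i, rotm n r m x i < s with hP
  rw [← Finset.sum_filter_add_sum_filter_not (supp (n + 1) r) P]
  have hfar : ∀ x ∈ (supp (n + 1) r).filter (fun x => ¬ P x),
      -(C1 n s * ((n : ℝ) / s) ^ n) ≤ (gg n s x).re := by
    intro x hx
    obtain ⟨h1, h2⟩ := Finset.mem_filter.1 hx
    have h3 : ∀ m, ∃ i, s ≤ rotm n r m x i := by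
      intro m
      by_contra hcon
      push Not at hcon
      exact h2 ⟨m, hcon⟩
    have h4 := norm_gg_le_of_far hn hs (supp_subset _ _ h1) h3
    have h5 := Complex.abs_re_le_norm (gg n s x)
    have h6 := neg_abs_le (gg n s x).re
    linarith
  have hnear : ∀ x ∈ (supp (n + 1) r).filter P, 0 ≤ (gg n s x).re := by
    intro x hx
    obtain ⟨h1, m, h2⟩ := Finset.mem_filter.1 hx
    exact gg_re_nonneg hs (supp_subset _ _ h1) h2
  have h1 : -(((r : ℕ) : ℝ) ^ n * (C1 n s * ((n : ℝ) / s) ^ n)) ≤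
      ∑ x ∈ (supp (n + 1) r).filter (fun x => ¬ P x), (gg n s x).re := by
    have h2 := Finset.sum_le_sum hfar
    rw [Finset.sum_const, nsmul_eq_mul] at h2
    refine le_trans ?_ h2
    have h3 : (#((supp (n + 1) r).filter (fun x => ¬ P x)) : ℝ) ≤ (r : ℝ) ^ n := by
      have h4 : #((supp (n + 1) r).filter (fun x => ¬ P x)) ≤ r ^ n :=
        (Finset.card_le_card ((Finset.filter_subset _ _).trans (supp_subset _ _))).trans
          (card_colors_le n r)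
      exact_mod_cast h4
    have h4 : 0 ≤ C1 n s * ((n : ℝ) / s) ^ n := mul_nonneg (C1_nonneg n s) (by positivity)
    rw [mul_neg, neg_le_neg_iff]
    exact mul_le_mul_of_nonneg_right h3 h4
  have hlt : ∀ j ∈ range K, 11 * (n + 1) ^ 3 * 4 ^ j < s := by
    intro j hj
    refine lt_of_lt_of_le ?_ hK
    refine Nat.mul_lt_mul_of_pos_left ?_ (by positivity)
    exact Nat.pow_lt_pow_right (by norm_num) (Finset.mem_range.1 hj)
  have hdisj : (range K : Set ℕ).PairwiseDisjoint (fam n) := by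
    intro i _ j _ hij
    rcases lt_or_gt_of_ne hij with h | h
    · exact fam_disjoint hn h
    · exact (fam_disjoint hn h).symm
  have h2 : (K : ℝ) * (((r : ℕ) : ℝ) / (2 * π * ((11 * (n + 1) ^ 3 : ℕ) : ℝ))) ^ PP n ≤
      ∑ x ∈ (supp (n + 1) r).filter P, (gg n s x).re := by
    calc (K : ℝ) * (((r : ℕ) : ℝ) / (2 * π * ((11 * (n + 1) ^ 3 : ℕ) : ℝ))) ^ PP n =
        ∑ _j ∈ range K, (((r : ℕ) : ℝ) / (2 * π * ((11 * (n + 1) ^ 3 : ℕ) : ℝ))) ^ PP n := by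
          rw [Finset.sum_const, Finset.card_range, nsmul_eq_mul]
      _ ≤ ∑ j ∈ range K, ∑ x ∈ fam n j, (gg n s x).re :=
          Finset.sum_le_sum fun j hj => fam_sum (hlt j hj)
      _ = ∑ x ∈ (range K).biUnion (fam n), (gg n s x).re := by
          rw [Finset.sum_biUnion hdisj]
      _ ≤ _ := by
          refine Finset.sum_le_sum_of_subset_of_nonneg ?_ fun x hx _ => hnear x hx
          intro x hx
          rw [Finset.mem_biUnion] at hx
          obtain ⟨j, hj, hx⟩ := hx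
          obtain ⟨t, ht, rfl⟩ := mem_fam hx
          rw [Finset.mem_filter]
          refine ⟨fx_mem_supp ht (hlt j hj), 0, fun i => ?_⟩
          rw [rotm_zero (fx_zero n j t)]
          exact lt_of_le_of_lt (fx_le ht i) (hlt j hj)
  linarith

/-! ### the growth -/

/-- a constant -/
noncomputable def a1 (n : ℕ) : ℝ := (1 / (2 * π * ((11 * (n + 1) ^ 3 : ℕ) : ℝ))) ^ PP n

/-- a constant -/
noncomputable def a2 (n : ℕ) : ℝ := ((2 * (n + 1) : ℕ) : ℝ) ^ (n + 1) *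
  (((n + 1 : ℕ) : ℝ) / 4) ^ PP n

/-- a constant -/
noncomputable def a3 (n : ℕ) : ℝ := (2 * ((n + 1 : ℕ) : ℝ)) ^ n / ((n + 1 : ℕ) : ℝ) *
  Real.sqrt ((n + 1 : ℕ) : ℝ)

theorem a1_pos (n : ℕ) : 0 < a1 n := by
  rw [a1]
  have := Real.pi_pos
  positivity

theorem a2_pos (n : ℕ) : 0 < a2 n := by
  rw [a2]
  positivity

theorem a3_pos (n : ℕ) : 0 < a3 n := by
  rw [a3]
  positivity

theorem C1_eq (n s : ℕ) : C1 n s = a2 n * ((2 * (n + 1) * s : ℕ) : ℝ) ^ PP n := by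
  have h : ((n + 1 : ℕ) : ℝ) * ((2 * (n + 1) * s : ℕ) : ℝ) / 4 =
      ((n + 1 : ℕ) : ℝ) / 4 * ((2 * (n + 1) * s : ℕ) : ℝ) := by ring
  rw [C1, a2, h, mul_pow]
  ring

theorem scale_eq {n s : ℕ} (hs : 0 < s) :
    kk n s ^ 2 * cc n s * ((2 * (n + 1) * s : ℕ) : ℝ) ^ PP n =
      a3 n * ((2 * (n + 1) * s : ℕ) : ℝ) ^ (((n : ℝ) ^ 2) / 2) := by
  have hr : 0 < 2 * (n + 1) * s := by positivity
  have hN : (0 : ℝ) < ((n + 1 : ℕ) : ℝ) := by positivity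
  have hsR : (s : ℝ) = ((2 * (n + 1) * s : ℕ) : ℝ) / (2 * ((n + 1 : ℕ) : ℝ)) := by
    push_cast
    field_simp
  rw [kk, cc, nrm, a3, Nat.add_sub_cancel, hsR]
  have e0 : 2 * (n + 1) * s = 2 * (n + 1) * s := rfl
  set R : ℝ := ((2 * (n + 1) * s : ℕ) : ℝ) with hR
  have hRpos : 0 < R := by rw [hR]; exact_mod_cast hr
  set c : ℝ := ((n + 1 : ℕ) : ℝ) with hc
  rw [Real.sqrt_mul hN.le]
  have h1 : Real.sqrt (R ^ n) * R ^ PP n = R ^ (((n : ℝ) ^ 2) / 2) * R ^ n := by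
    rw [Real.sqrt_eq_rpow, ← Real.rpow_natCast R n, ← Real.rpow_natCast R (PP n),
      ← Real.rpow_mul hRpos.le, ← Real.rpow_add hRpos, ← Real.rpow_add hRpos]
    congr 1
    have h2 : (2 : ℝ) * PP n = (n + 1) * n := by exact_mod_cast two_PP n
    linarith
  have hRn : R ^ n ≠ 0 := by positivity
  have hcn : (2 * c) ^ n ≠ 0 := by positivity
  have hc0 : c ≠ 0 := hN.ne'
  calc ((2 * c) ^ n / (c * R ^ n)) ^ 2 * (c * (R / (2 * c)) ^ n * (√c * √(R ^ n))) * R ^ PP n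
      = ((2 * c) ^ n / (c * R ^ n)) ^ 2 * (c * (R / (2 * c)) ^ n * √c) * (√(R ^ n) * R ^ PP n) := by
        ring
    _ = ((2 * c) ^ n / (c * R ^ n)) ^ 2 * (c * (R / (2 * c)) ^ n * √c) *
          (R ^ (((n : ℝ) ^ 2) / 2) * R ^ n) := by rw [h1]
    _ = (2 * c) ^ n / c * √c * R ^ (((n : ℝ) ^ 2) / 2) := by
        rw [div_pow R (2 * c) n]
        field_simp

theorem kc_nonneg {n s : ℕ} (hs : 0 < s) : 0 ≤ kk n s ^ 2 * cc n s :=
  mul_nonneg (sq_nonneg _) (cc_pos hs).le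

theorem norm_Zred {n s : ℕ} (hn : 1 ≤ n) (hs : 0 < s) : ‖Zred (n + 1) (2 * (n + 1) * s)‖ =
    kk n s ^ 2 * cc n s * ‖∑ x ∈ supp (n + 1) (2 * (n + 1) * s), gg n s x‖ := by
  rw [Zred_eq hn hs, norm_mul, Complex.norm_real, Real.norm_of_nonneg (kc_nonneg hs)]

theorem norm_Zred_ge {n s K : ℕ} (hn : 1 ≤ n) (hK : 11 * (n + 1) ^ 3 * 4 ^ K ≤ s) :
    a3 n * ((K : ℝ) * a1 n - a2 n * (2 * (n + 1) * n) ^ n) *
      ((2 * (n + 1) * s : ℕ) : ℝ) ^ (((n : ℝ) ^ 2) / 2) ≤ ‖Zred (n + 1) (2 * (n + 1) * s)‖ := by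
  have h4K : 1 ≤ 4 ^ K := Nat.one_le_pow _ _ (by norm_num)
  have hs : 0 < s := by
    have : 0 < 11 * (n + 1) ^ 3 * 4 ^ K := by positivity
    omega
  have hs' : (0 : ℝ) < s := by exact_mod_cast hs
  rw [norm_Zred hn hs]
  refine le_trans (le_of_eq ?_) (mul_le_mul_of_nonneg_left (sum_gg_ge hn hK) (kc_nonneg hs))
  have h1 : (((2 * (n + 1) * s : ℕ) : ℝ) / (2 * π * ((11 * (n + 1) ^ 3 : ℕ) : ℝ))) ^ PP n =
      a1 n * ((2 * (n + 1) * s : ℕ) : ℝ) ^ PP n := by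
    rw [a1, ← mul_pow]
    congr 1
    ring
  have h2 : ((2 * (n + 1) * s : ℕ) : ℝ) ^ n * (C1 n s * ((n : ℝ) / s) ^ n) =
      a2 n * (2 * (n + 1) * n) ^ n * ((2 * (n + 1) * s : ℕ) : ℝ) ^ PP n := by
    rw [C1_eq]
    have h3 : ((2 * (n + 1) * s : ℕ) : ℝ) ^ n * ((n : ℝ) / s) ^ n = (2 * (n + 1) * n) ^ n := by
      rw [← mul_pow]
      congr 1
      push_cast
      field_simp
    calc ((2 * (n + 1) * s : ℕ) : ℝ) ^ n *
        (a2 n * ((2 * (n + 1) * s : ℕ) : ℝ) ^ PP n * ((n : ℝ) / s) ^ n) =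
        a2 n * (((2 * (n + 1) * s : ℕ) : ℝ) ^ n * ((n : ℝ) / s) ^ n) *
          ((2 * (n + 1) * s : ℕ) : ℝ) ^ PP n := by ring
      _ = _ := by rw [h3]
  rw [h1, h2]
  have h4 := scale_eq (n := n) hs
  linear_combination (-((K : ℝ) * a1 n - a2 n * (2 * (n + 1) * n) ^ n)) * h4

theorem norm_Zred_le {n s : ℕ} (hn : 1 ≤ n) (hs : 0 < s) :
    ‖Zred (n + 1) (2 * (n + 1) * s)‖ ≤ a3 n * a2 n * ((n : ℝ) + 2) *
      (1 + Real.log ((2 * (n + 1) * s : ℕ) : ℝ)) ^ n *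
        ((2 * (n + 1) * s : ℕ) : ℝ) ^ (((n : ℝ) ^ 2) / 2) := by
  rw [norm_Zred hn hs]
  refine (mul_le_mul_of_nonneg_left (sum_gg_le hn hs) (kc_nonneg hs)).trans (le_of_eq ?_)
  rw [C1_eq]
  have h4 := scale_eq (n := n) hs
  linear_combination (a2 n * ((n : ℝ) + 2) * (1 + Real.log ((2 * (n + 1) * s : ℕ) : ℝ)) ^ n) * h4

theorem growth_lower {N : ℕ} (hN : 2 ≤ N) : Tendsto (fun j : ℕ =>
    ‖Zred N (2 * N * (j + 1))‖ / ((2 * N * (j + 1) : ℕ) : ℝ) ^ (((N - 1 : ℕ) ^ 2 : ℝ) / 2))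
    atTop atTop := by
  obtain ⟨n, rfl⟩ : ∃ n, N = n + 1 := ⟨N - 1, by omega⟩
  have hn : 1 ≤ n := by omega
  rw [Nat.add_sub_cancel, tendsto_atTop]
  intro C
  obtain ⟨K, hK⟩ := exists_nat_ge ((C / a3 n + a2 n * (2 * (n + 1) * n) ^ n) / a1 n)
  rw [div_le_iff₀ (a1_pos n)] at hK
  have hKC : C ≤ a3 n * ((K : ℝ) * a1 n - a2 n * (2 * (n + 1) * n) ^ n) := by
    have h1 : C / a3 n ≤ (K : ℝ) * a1 n - a2 n * (2 * (n + 1) * n) ^ n := by linarith
    rw [div_le_iff₀ (a3_pos n)] at h1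
    linarith
  filter_upwards [eventually_ge_atTop (11 * (n + 1) ^ 3 * 4 ^ K)] with j hj
  have h1 := norm_Zred_ge hn (K := K) (s := j + 1) (by omega)
  have hR : (0 : ℝ) < ((2 * (n + 1) * (j + 1) : ℕ) : ℝ) := by positivity
  rw [le_div_iff₀ (by positivity)]
  refine le_trans ?_ h1
  exact mul_le_mul_of_nonneg_right hKC (by positivity)

theorem log_pow_le {n : ℕ} (hn : 1 ≤ n) {R : ℝ} (hR1 : 1 ≤ R) :
    (1 + Real.log R) ^ n ≤ (1 + 8 * n) ^ n * R ^ (1 / 8 : ℝ) := by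
  have hn' : (0 : ℝ) < n := by exact_mod_cast hn
  have hRpos : 0 < R := by linarith
  have hlog0 : 0 ≤ Real.log R := Real.log_nonneg hR1
  set e : ℝ := 1 / (8 * n) with he
  have hepos : 0 < e := by rw [he]; positivity
  have hlog : 1 + Real.log R ≤ (1 + 8 * n) * R ^ e := by
    have h2 := Real.log_le_rpow_div hRpos.le hepos
    have h3 : R ^ e / e = 8 * n * R ^ e := by rw [he]; field_simp
    have h4 : 1 ≤ R ^ e := Real.one_le_rpow hR1 hepos.le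
    rw [h3] at h2
    nlinarith
  have h2 := pow_le_pow_left₀ (by linarith) hlog n
  rw [mul_pow, ← Real.rpow_mul_natCast hRpos.le] at h2
  have h3 : e * n = 1 / 8 := by rw [he]; field_simp
  rwa [h3] at h2

theorem growth_upper {N : ℕ} (hN : 2 ≤ N) : Tendsto (fun j : ℕ =>
    ‖Zred N (2 * N * (j + 1))‖ / ((2 * N * (j + 1) : ℕ) : ℝ) ^ ((((N - 1 : ℕ) ^ 2 : ℝ) + 1) / 2))
    atTop (𝓝 0) := by
  obtain ⟨n, rfl⟩ : ∃ n, N = n + 1 := ⟨N - 1, by omega⟩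
  have hn : 1 ≤ n := by omega
  rw [Nat.add_sub_cancel]
  set C : ℝ := a3 n * a2 n * ((n : ℝ) + 2) * (1 + 8 * n) ^ n with hC
  have h3 := a3_pos n
  have h2 := a2_pos n
  have hCpos : 0 ≤ C := by rw [hC]; positivity
  have hlim : Tendsto (fun j : ℕ => C * ((2 * (n + 1) * (j + 1) : ℕ) : ℝ) ^ (-(3 / 8 : ℝ)))
      atTop (𝓝 0) := by
    have h1 : Tendsto (fun j : ℕ => ((2 * (n + 1) * (j + 1) : ℕ) : ℝ)) atTop atTop := by
      refine tendsto_natCast_atTop_atTop.comp ?_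
      refine tendsto_atTop_mono (fun j => ?_) tendsto_id
      have : j + 1 ≤ 2 * (n + 1) * (j + 1) := Nat.le_mul_of_pos_left _ (by omega)
      simp only [id]
      omega
    have h2 := (tendsto_rpow_neg_atTop (show (0 : ℝ) < 3 / 8 by norm_num)).comp h1
    have h3 := h2.const_mul C
    rw [mul_zero] at h3
    exact h3
  refine squeeze_zero (fun j => ?_) (fun j => ?_) hlim
  · positivity
  have h1 := norm_Zred_le hn (s := j + 1) (Nat.succ_pos j)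
  have hR1' : 1 ≤ 2 * (n + 1) * (j + 1) := Nat.mul_pos (by omega) (Nat.succ_pos j)
  have hR1 : (1 : ℝ) ≤ ((2 * (n + 1) * (j + 1) : ℕ) : ℝ) := by exact_mod_cast hR1'
  set R : ℝ := ((2 * (n + 1) * (j + 1) : ℕ) : ℝ) with hR
  have hRpos : 0 < R := by linarith
  rw [div_le_iff₀ (by positivity)]
  refine h1.trans ?_
  have h4 := log_pow_le hn hR1
  have h5 : R ^ (-(3 / 8 : ℝ)) * R ^ (((n : ℝ) ^ 2 + 1) / 2) =
      R ^ (1 / 8 : ℝ) * R ^ (((n : ℝ) ^ 2) / 2) := by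
    rw [← Real.rpow_add hRpos, ← Real.rpow_add hRpos]
    congr 1
    ring
  calc a3 n * a2 n * ((n : ℝ) + 2) * (1 + Real.log R) ^ n * R ^ (((n : ℝ) ^ 2) / 2)
      ≤ a3 n * a2 n * ((n : ℝ) + 2) * ((1 + 8 * n) ^ n * R ^ (1 / 8 : ℝ)) *
        R ^ (((n : ℝ) ^ 2) / 2) := by gcongr
    _ = C * (R ^ (1 / 8 : ℝ) * R ^ (((n : ℝ) ^ 2) / 2)) := by rw [hC]; ring
    _ = C * R ^ (-(3 / 8 : ℝ)) * R ^ (((n : ℝ) ^ 2 + 1) / 2) := by rw [← h5]; ring

end Pool.Agent.Helper24.RTG
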